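import Pool.Agent.Y817.ISO.Stm

set_option autoImplicit false

/-! # AMUP: the universal property of the amalgam `U *_E (E × C₅)` -/

namespace Pool.Agent.X192.ISO

open Pool.Agent.Y817.ISO

section

variable {E U : Type} [Group E] [Group U] (β : E →* U)

/-- the first factor -/
def fU : U →* Amal β := Monoid.PushoutI.of (φ := famHom β) false

/-- the second factor -/
def fE : E × Multiplicative (ZMod 5) →* Amal β := Monoid.PushoutI.of (φ := famHom β) true

lemma fE_inl (e : E) : fE β (e, 1) = fU β (β e) := by
  have h1 := Monoid.PushoutI.of_apply_eq_base (famHom β) true e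
  have h2 := Monoid.PushoutI.of_apply_eq_base (famHom β) false e
  exact h1.trans h2.symm

end

/-- powers of an element of order five -/
def c5hom {H : Type} [Group H] (c' : H) (h5 : c' ^ 5 = 1) : Multiplicative (ZMod 5) →* H where
  toFun k := c' ^ (k.toAdd.val)
  map_one' := by simp
  map_mul' a b := by
    rw [← pow_add, toAdd_mul, ZMod.val_add]
    exact (pow_eq_pow_mod _ h5).symm

lemma c5_prod {E : Type} [Group E] (e : E) (k : Multiplicative (ZMod 5)) :
    (e, k) = (e, 1) * ((1, (Multiplicative.ofAdd (1 : ZMod 5)) ^ (k.toAdd.val)) :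
      E × Multiplicative (ZMod 5)) := by
  have h : (Multiplicative.ofAdd (1 : ZMod 5)) ^ (k.toAdd.val) = k := by
    rw [← ofAdd_nsmul]
    apply Multiplicative.toAdd.injective
    simp
  rw [h, Prod.mk_mul_mk, mul_one, one_mul]

theorem amup : StmAmUP := by
  intro E U _ _ β
  have hc : ∀ k : ℕ, (fE β (1, Multiplicative.ofAdd 1)) ^ k =
      fE β (1, (Multiplicative.ofAdd (1 : ZMod 5)) ^ k) := by
    intro k
    rw [← map_pow, Prod.pow_mk, one_pow]
  refine ⟨fU β, fE β (1, Multiplicative.ofAdd 1), ?_, ?_, ?_, ?_⟩
  · rw [hc, show (Multiplicative.ofAdd (1 : ZMod 5)) ^ 5 = 1 by decide]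
    exact map_one (fE β)
  · intro e
    rw [← fE_inl]
    change fE β _ * fE β _ = fE β _ * fE β _
    rw [← map_mul, ← map_mul, Prod.mk_mul_mk, Prod.mk_mul_mk]
    simp
  · rw [eq_top_iff]
    rintro x -
    induction x using Monoid.PushoutI.induction_on with
    | of i g =>
      cases i with
      | false => exact Subgroup.subset_closure (Or.inl ⟨g, rfl⟩)
      | true =>
        obtain ⟨e, k⟩ := g
        have h1 : fE β (e, k) = fU β (β e) * (fE β (1, Multiplicative.ofAdd 1)) ^ (k.toAdd.val) := by
          rw [hc, ← fE_inl, ← map_mul, ← c5_prod]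
        have h2 : fE β (e, k) ∈ Subgroup.closure (Set.range (fU β) ∪
            {fE β (1, Multiplicative.ofAdd 1)}) := by
          rw [h1]
          exact Subgroup.mul_mem _ (Subgroup.subset_closure (Or.inl ⟨_, rfl⟩))
            (Subgroup.pow_mem _ (Subgroup.subset_closure (Set.mem_union_right _ (Set.mem_singleton _))) _)
        exact h2
    | base h =>
      have h2 : fU β (β h) = Monoid.PushoutI.base (famHom β) h :=
        Monoid.PushoutI.of_apply_eq_base (famHom β) false h
      rw [← h2]
      exact Subgroup.subset_closure (Or.inl ⟨β h, rfl⟩)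
    | mul x y hx hy => exact Subgroup.mul_mem _ hx hy
  · intro H _ φ c' h5 hcomm
    have hcc : ∀ (e : E) (k : Multiplicative (ZMod 5)),
        Commute ((φ.comp β) e) (c5hom c' h5 k) := fun e k => ((hcomm e).pow_left _).symm
    let ψ : E × Multiplicative (ZMod 5) →* H := MonoidHom.noncommCoprod (φ.comp β) (c5hom c' h5) hcc
    have hψ : ∀ e k, ψ (e, k) = φ (β e) * c5hom c' h5 k := fun e k => rfl
    let fam : ∀ b, Fam E U b →* H := fun b => match b with
      | false => φ
      | true => ψ
    have hfam : ∀ b, (fam b).comp (famHom β b) = φ.comp β := by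
      intro b
      cases b with
      | false => rfl
      | true =>
        ext e
        change ψ (e, 1) = φ (β e)
        rw [hψ, map_one, mul_one]
    refine ⟨Monoid.PushoutI.lift fam (φ.comp β) hfam, ?_, ?_⟩
    · intro x
      exact Monoid.PushoutI.lift_of fam (φ.comp β) hfam (i := false) x
    · have h1 := Monoid.PushoutI.lift_of fam (φ.comp β) hfam (i := true)
        ((1 : E), Multiplicative.ofAdd (1 : ZMod 5))
      refine h1.trans ?_
      change ψ (1, Multiplicative.ofAdd 1) = c'
      rw [hψ, map_one, map_one, one_mul]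
      change c' ^ (ZMod.val (1 : ZMod 5)) = c'
      rw [show ZMod.val (1 : ZMod 5) = 1 from rfl, pow_one]

end Pool.Agent.X192.ISO
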