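import Pool.Agent.Y817.ISO.Stm

set_option autoImplicit false

/-! # The base group -/

namespace Pool.Agent.X192.ISO

open Pool.Agent.Y817.ISO SemidirectProduct

section

variable {P J : Type}

lemma act_of (v : Multiplicative (J → ℤ)) (p : P) (n : J → ℤ) :
    act P J v (FreeGroup.of (p, n)) = FreeGroup.of (p, n - v.toAdd) := by
  simp [act, tr]

lemma T_eq (p : P) (v : J → ℤ) :
    T (X0 P J) t0 p v = inl (FreeGroup.of (p, v)) := by
  unfold T X0 t0
  rw [← map_inv, ← inl_aut_inv]
  congr 1
  rw [← map_inv, act_of]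
  simp

/-- torsion-free -/
theorem tf_G0 : TF (G0 P J) := by
  intro x hx
  rw [isOfFinOrder_iff_pow_eq_one] at hx
  obtain ⟨n, hn, h⟩ := hx
  have h1 : x.right = 1 := by
    have h2 : x.right ^ n = 1 := by
      have h3 := congrArg (rightHom (φ := act P J)) h
      rw [map_pow, map_one] at h3
      exact h3
    have h4 : x.right.toAdd = 0 := by
      have h5 : n • x.right.toAdd = 0 := by
        rw [← toAdd_pow, h2]
        rfl
      funext j
      have h6 := congrFun h5 j
      simp only [Pi.smul_apply, Pi.zero_apply, smul_eq_zero] at h6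
      rcases h6 with h6 | h6
      · omega
      · exact h6
    exact h4
  have h2 : x = inl x.left := by
    rw [← inl_left_mul_inr_right x, h1]
    simp
  rw [h2, ← map_pow] at h
  have h3 : x.left ^ n = 1 := inl_injective (by rw [h, map_one])
  have h4 : x.left = 1 := by
    have := pow_left_injective (M := FreeGroup (P × (J → ℤ))) (n := n) (by omega)
    apply this
    dsimp only
    rw [h3, one_pow]
  rw [h2, h4, map_one]

theorem base_closure : Subgroup.closure (Set.range (X0 P J) ∪
    Set.range (t0 : P → G0 P J)) = ⊤ := by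
  rw [eq_top_iff]
  rintro x -
  set C := Subgroup.closure (Set.range (X0 P J) ∪ Set.range (t0 : P → G0 P J)) with hC
  have hX : ∀ v, X0 P J v ∈ C := fun v => Subgroup.subset_closure (Or.inl ⟨v, rfl⟩)
  have ht : ∀ p, (t0 p : G0 P J) ∈ C := fun p => Subgroup.subset_closure (Or.inr ⟨p, rfl⟩)
  rw [← inl_left_mul_inr_right x]
  refine C.mul_mem ?_ (hX _)
  have h1 : ∀ y : FreeGroup (P × (J → ℤ)), y ∈ C.comap (inl : _ →* G0 P J) := by
    intro y
    induction y using FreeGroup.induction_on with
    | C1 => exact Subgroup.one_mem _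
    | of pv =>
      obtain ⟨p, v⟩ := pv
      rw [Subgroup.mem_comap, ← T_eq]
      exact C.mul_mem (C.mul_mem (C.inv_mem (hX _)) (ht p)) (hX _)
    | inv_of pv h => exact Subgroup.inv_mem _ h
    | mul x y hx hy => exact Subgroup.mul_mem _ hx hy
  exact h1 x.left

theorem base_up (H : Type) [Group H] (X : Multiplicative (J → ℤ) →* H) (t : P → H) :
    ∃ Φ : G0 P J →* H, (∀ v, Φ (X0 P J v) = X v) ∧ ∀ p, Φ (t0 p) = t p := by
  let f1 : FreeGroup (P × (J → ℤ)) →* H := FreeGroup.lift (fun pv => T X t pv.1 pv.2)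
  have hc : ∀ v, f1.comp (act P J v).toMonoidHom = (MulAut.conj (X v)).toMonoidHom.comp f1 := by
    intro v
    apply FreeGroup.ext_hom
    rintro ⟨p, n⟩
    simp only [MonoidHom.comp_apply, MulEquiv.toMonoidHom_eq_coe, MonoidHom.coe_coe, act_of,
      f1, FreeGroup.lift_apply_of, MulAut.conj_apply, T, ofAdd_sub, ofAdd_toAdd]
    rw [div_eq_mul_inv, map_mul, map_inv]
    have e : X (Multiplicative.ofAdd n) * (X v)⁻¹ = (X v)⁻¹ * X (Multiplicative.ofAdd n) := by
      rw [← map_inv, ← map_mul, ← map_mul, mul_comm]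
    have e' : X v * (X (Multiplicative.ofAdd n))⁻¹ = (X (Multiplicative.ofAdd n))⁻¹ * X v := by
      rw [← map_inv, ← map_mul, ← map_mul, mul_comm]
    rw [mul_inv_rev, inv_inv, e', ← mul_assoc (X v), ← mul_assoc (X v), e', mul_assoc _ _ (X v)⁻¹, e]
  refine ⟨SemidirectProduct.lift f1 X hc, fun v => lift_inr _ _ _ _, fun p => ?_⟩
  unfold t0
  rw [lift_inl]
  simp [f1, T]

theorem base_emb (d : ℕ) (μ : (Fin d → ℤ) →+ (J → ℤ)) (hμ : Function.Injective μ) (p : P)
    (a : J → ℤ) : ∃ f : G0 Unit (Fin d) →* G0 P J, Function.Injective f ∧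
      (∀ w : Fin d → ℤ, f (X0 Unit (Fin d) (Multiplicative.ofAdd w)) =
        X0 P J (Multiplicative.ofAdd (μ w))) ∧
      f (t0 ()) = T (X0 P J) t0 p a ∧
      ∀ n, f (inl (FreeGroup.of ((), n))) = inl (FreeGroup.of (p, a + μ n)) := by
  let f1 : FreeGroup (Unit × (Fin d → ℤ)) →* FreeGroup (P × (J → ℤ)) :=
    FreeGroup.map (fun uw => (p, a + μ uw.2))
  let f2 : Multiplicative (Fin d → ℤ) →* Multiplicative (J → ℤ) := AddMonoidHom.toMultiplicative μ
  have hf1 : Function.Injective f1 := by
    apply FreeGroup.map_injective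
    rintro ⟨u, w⟩ ⟨u', w'⟩ h
    simp only [Prod.mk.injEq, add_right_inj, true_and] at h
    rw [hμ h]
  have hf2 : Function.Injective f2 := fun x y h => hμ h
  have hc : ∀ v, f1.comp (act Unit (Fin d) v).toMonoidHom =
      (act P J (f2 v)).toMonoidHom.comp f1 := by
    intro v
    apply FreeGroup.ext_hom
    rintro ⟨u, n⟩
    simp only [MonoidHom.comp_apply, MulEquiv.toMonoidHom_eq_coe, MonoidHom.coe_coe, act_of,
      f1, FreeGroup.map.of]
    congr 2
    have : (f2 v).toAdd = μ v.toAdd := rfl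
    rw [this, map_sub]
    abel
  refine ⟨SemidirectProduct.map f1 f2 hc, ?_, ?_, ?_, ?_⟩
  · intro x y h
    have h1 := congrArg SemidirectProduct.left h
    have h2 := congrArg SemidirectProduct.right h
    rw [map_left, map_left] at h1
    rw [map_right, map_right] at h2
    exact SemidirectProduct.ext (hf1 h1) (hf2 h2)
  · intro w
    exact map_inr _ _ _ _
  · rw [T_eq]
    unfold t0
    rw [map_inl]
    simp [f1]
  · intro n
    rw [map_inl]
    simp [f1]

end

theorem base : StmBase := by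
  intro P J _
  refine ⟨tf_G0, base_closure, fun H _ X t => base_up H X t, ?_⟩
  intro d μ hμ p a
  obtain ⟨f, h1, h2, h3, _⟩ := base_emb d μ hμ p a
  exact ⟨f, h1, h2, h3⟩

end Pool.Agent.X192.ISO
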