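import Pool.Agent.X192.ISO.StageU

set_option autoImplicit false

/-! # The final argument -/

namespace Pool.Agent.X192.ISO

open Pool.Agent.Y817.ISO

/-- conjugate embeddings give isomorphic amalgams -/
theorem amal_conj (hAm : StmAmUP) {E U : Type} [Group E] [Group U] (β β' : E →* U) (ρ : U)
    (h : ∀ x, β x = ρ * β' x * ρ⁻¹) : Nonempty (Amal β ≃* Amal β') := by
  obtain ⟨o, c, a1, a2, a3, a4⟩ := hAm E U β
  obtain ⟨o', c', b1, b2, b3, b4⟩ := hAm E U β'
  obtain ⟨Φ, Φ1, Φ2⟩ := a4 (Amal β') o' (o' ρ * c' * (o' ρ)⁻¹) (by rw [conj_pow, b1]; group) (by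
    intro x
    rw [h, map_mul, map_mul, map_inv]
    have := b2 x
    rw [Commute, SemiconjBy] at this ⊢
    calc o' ρ * c' * (o' ρ)⁻¹ * (o' ρ * o' (β' x) * (o' ρ)⁻¹) =
        o' ρ * (c' * o' (β' x)) * (o' ρ)⁻¹ := by group
      _ = o' ρ * (o' (β' x) * c') * (o' ρ)⁻¹ := by rw [this]
      _ = _ := by group)
  obtain ⟨Ψ, Ψ1, Ψ2⟩ := b4 (Amal β) o ((o ρ)⁻¹ * c * o ρ) (by
    have := conj_pow (i := 5) (a := (o ρ)⁻¹) (b := c)
    rw [inv_inv] at this
    rw [this, a1]; group) (by
    intro x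
    have h1 : β' x = ρ⁻¹ * β x * ρ := by rw [h]; group
    rw [h1, map_mul, map_mul, map_inv]
    have := a2 x
    rw [Commute, SemiconjBy] at this ⊢
    calc (o ρ)⁻¹ * c * o ρ * ((o ρ)⁻¹ * o (β x) * o ρ) =
        (o ρ)⁻¹ * (c * o (β x)) * o ρ := by group
      _ = (o ρ)⁻¹ * (o (β x) * c) * o ρ := by rw [this]
      _ = _ := by group)
  have e1 : ∀ x, Ψ (Φ x) = x := by
    intro x
    have h1 : Subgroup.closure (Set.range o ∪ {c}) ≤
        MonoidHom.eqLocus (Ψ.comp Φ) (MonoidHom.id _) := by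
      rw [Subgroup.closure_le]
      rintro y (⟨w, rfl⟩ | hy)
      · change Ψ (Φ (o w)) = o w
        rw [Φ1, Ψ1]
      · rw [Set.mem_singleton_iff.1 hy]
        change Ψ (Φ c) = c
        rw [Φ2, map_mul, map_mul, map_inv, Ψ1, Ψ2]
        group
    exact h1 (show x ∈ Subgroup.closure (Set.range o ∪ {c}) by rw [a3]; trivial)
  have e2 : ∀ x, Φ (Ψ x) = x := by
    intro x
    have h1 : Subgroup.closure (Set.range o' ∪ {c'}) ≤
        MonoidHom.eqLocus (Φ.comp Ψ) (MonoidHom.id _) := by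
      rw [Subgroup.closure_le]
      rintro y (⟨w, rfl⟩ | hy)
      · change Φ (Ψ (o' w)) = o' w
        rw [Ψ1, Φ1]
      · rw [Set.mem_singleton_iff.1 hy]
        change Φ (Ψ c') = c'
        rw [Ψ2, map_mul, map_mul, map_inv, Φ1, Φ2]
        group
    exact h1 (show x ∈ Subgroup.closure (Set.range o' ∪ {c'}) by rw [b3]; trivial)
  exact ⟨MulEquiv.mk' ⟨Φ, Ψ, e1, e2⟩ (map_mul Φ)⟩

/-- the relators of the group of `n` -/
abbrev RelN {A : Type} (c x t τ : A) (L : List (List (A × Bool))) (n : ℕ) : Set (FreeGroup A) :=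
  {g : FreeGroup A | ∃ w ∈ W c x t τ n :: L, g = FreeGroup.mk w}

theorem genRel_map {P ι J : Type} [DecidableEq J] (D : Rules P ι J) (B : P) (e : J) {H H' : Type}
    [Group H] [Group H'] (f : H →* H') {X : Multiplicative (J → ℤ) →* H} {t : P → H} {r : ι → H}
    {z u v τ c : H} (h : GenRel D B e H X t r z u v τ c) :
    GenRel D B e H' (f.comp X) (fun p => f (t p)) (fun i => f (r i)) (f z) (f u) (f v) (f τ)
      (f c) := by
  have hT' : ∀ p w, T (f.comp X) (fun p => f (t p)) p w = f (T X t p w) := by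
    intro p w
    simp [T]
  refine ⟨⟨?_, ?_⟩, ?_, ?_, ?_, ?_, ?_, ?_, ?_, ?_, ?_, ?_, ?_, ?_, ?_, ?_, ?_⟩
  · intro i w
    rw [MonoidHom.comp_apply, MonoidHom.comp_apply, ← map_mul, ← map_mul, h.rel.shift]
  · intro i
    rw [hT', hT', ← map_mul, ← map_mul, h.rel.rule]
  · exact fun w => (h.zx w).map f
  · exact fun w => (h.zr w).map f
  · exact fun w => (h.ux w).map f
  · exact fun w => (h.ut w).map f
  · exact fun w => (h.ur w).map f
  · rw [← map_inv, ← map_mul, ← map_mul, h.uz, map_pow]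
  · have := h.vx.map f
    rw [map_mul] at this
    exact this
  · have := h.vt.map f
    simp only [map_mul, map_inv, map_pow] at this
    exact this
  · intro w
    have := (h.τx w).map f
    simp only [map_mul, map_inv] at this
    exact this
  · intro w
    have := (h.τt w).map f
    simp only [map_mul, map_inv] at this
    exact this
  · intro w
    have := (h.τr' w).map f
    simp only [map_mul, map_inv] at this
    exact this
  · have := h.τz.map f
    simp only [map_mul, map_inv] at this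
    exact this
  · exact fun w => (h.τr w).map f
  · rw [← map_pow, h.c5, map_one]
  · exact h.cz.map f

theorem stageA (hAm : StmAmUP) {P ι J : Type} [Fintype P] [Fintype ι] [Fintype J] [DecidableEq J]
    (D : Rules P ι J) (B : P) (e : J) (L : List (List (Gen P ι J × Bool)))
    (hL : ∀ (H : Type) [Group H] (h : Gen P ι J → H),
      (∀ w ∈ L, FreeGroup.lift h (FreeGroup.mk w) = 1) ↔
      ∃ X : Multiplicative (J → ℤ) →* H,
        (∀ j, X (Multiplicative.ofAdd (Pi.single j 1)) = h (Sum.inl j)) ∧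
        GenRel D B e H X (fun p => h (Sum.inr (Sum.inl p)))
          (fun i => h (Sum.inr (Sum.inr (Sum.inl i)))) (h (Sum.inr (Sum.inr (Sum.inr 0))))
          (h (Sum.inr (Sum.inr (Sum.inr 1)))) (h (Sum.inr (Sum.inr (Sum.inr 2))))
          (h (Sum.inr (Sum.inr (Sum.inr 3)))) (h (Sum.inr (Sum.inr (Sum.inr 4)))))
    {R : ℕ → ℕ → Prop} {U : Type} [Group U] {X : Multiplicative (J → ℤ) →* U} {t : P → U}
    {r : ι → U} {z u v τ : U} (hU : UData R D B e U X t r z u v τ) (n a : ℕ)
    (β : Bg (2 ^ (a + 1)) →* U) (hβ1 : β (HNNExtension.of (Multiplicative.ofAdd 1)) = z)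
    (hβ2 : β HNNExtension.t = s (X (Multiplicative.ofAdd (Pi.single e 1))) (t B) n * τ *
        (s (X (Multiplicative.ofAdd (Pi.single e 1))) (t B) n)⁻¹) :
    Nonempty (PresentedGroup (RelN (Sum.inr (Sum.inr (Sum.inr 4)) : Gen P ι J) (Sum.inl e)
      (Sum.inr (Sum.inl B)) (Sum.inr (Sum.inr (Sum.inr 3))) L n) ≃* Amal β) := by
  obtain ⟨o, c, a1, a2, a3, a4⟩ := hAm _ U β
  let h : Gen P ι J → Amal β := fun g => match g with
    | Sum.inl j => o (X (Multiplicative.ofAdd (Pi.single j 1)))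
    | Sum.inr (Sum.inl p) => o (t p)
    | Sum.inr (Sum.inr (Sum.inl i)) => o (r i)
    | Sum.inr (Sum.inr (Sum.inr k)) => ![o z, o u, o v, o τ, c] k
  have hrel : ∀ y ∈ RelN (Sum.inr (Sum.inr (Sum.inr 4)) : Gen P ι J) (Sum.inl e)
      (Sum.inr (Sum.inl B)) (Sum.inr (Sum.inr (Sum.inr 3))) L n, FreeGroup.lift h y = 1 := by
    rintro _ ⟨w, hw, rfl⟩
    rcases List.mem_cons.1 hw with rfl | hw
    · rw [lift_W]
      have h1 := a2 HNNExtension.t
      rw [hβ2, map_mul, map_mul, map_inv, map_s] at h1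
      have h2 : h (Sum.inr (Sum.inr (Sum.inr 4))) = c := rfl
      have h3 : h (Sum.inr (Sum.inr (Sum.inr 3))) = o τ := rfl
      have h4 : h (Sum.inl e) = o (X (Multiplicative.ofAdd (Pi.single e 1))) := rfl
      have h5 : h (Sum.inr (Sum.inl B)) = o (t B) := rfl
      rw [h2, h3, h4, h5, h1.eq]
      group
    · apply (hL (Amal β) h).2 ?_ w hw
      have h1 := genRel_map D B e o hU.rel
      refine ⟨o.comp X, fun j => rfl, ?_⟩
      exact ⟨h1.rel, h1.zx, h1.zr, h1.ux, h1.ut, h1.ur, h1.uz, h1.vx, h1.vt, h1.τx, h1.τt, h1.τr',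
        h1.τz, h1.τr, a1, by
          have := a2 (HNNExtension.of (Multiplicative.ofAdd 1))
          rw [hβ1] at this
          exact this⟩
  set G := PresentedGroup (RelN (Sum.inr (Sum.inr (Sum.inr 4)) : Gen P ι J) (Sum.inl e)
      (Sum.inr (Sum.inl B)) (Sum.inr (Sum.inr (Sum.inr 3))) L n) with hG
  let Φ : G →* Amal β := PresentedGroup.toGroup hrel
  have hΦ : ∀ g, Φ (PresentedGroup.of g) = h g := fun g => PresentedGroup.toGroup.of hrel
  let k : Gen P ι J → G := fun g => PresentedGroup.of g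
  have hk : ∀ w ∈ W (Sum.inr (Sum.inr (Sum.inr 4)) : Gen P ι J) (Sum.inl e)
      (Sum.inr (Sum.inl B)) (Sum.inr (Sum.inr (Sum.inr 3))) n :: L,
      FreeGroup.lift k (FreeGroup.mk w) = 1 := by
    intro w hw
    have h1 : FreeGroup.lift k = PresentedGroup.mk _ := by
      apply FreeGroup.ext_hom
      intro g
      rw [FreeGroup.lift_apply_of]
      rfl
    rw [h1]
    exact PresentedGroup.one_of_mem ⟨w, hw, rfl⟩
  obtain ⟨X', x1, x2⟩ := (hL G k).1 (fun w hw => hk w (List.mem_cons_of_mem _ hw))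
  obtain ⟨Ψ0, y1, y2, y3, y4, y5, y6, y7⟩ := hU.up G X' _ _ _ _ _ _
    ⟨x2.rel, x2.zx, x2.zr, x2.ux, x2.ut, x2.ur, x2.uz, x2.vx, x2.vt, x2.τx, x2.τt, x2.τr',
        x2.τz, x2.τr, one_pow 5, Commute.one_left _⟩
  obtain ⟨Ψ, Ψ1, Ψ2⟩ := a4 G Ψ0 (k (Sum.inr (Sum.inr (Sum.inr 4)))) x2.c5 (by
    intro w
    induction w using HNNExtension.induction_on with
    | of g =>
      have h1 : (HNNExtension.of g : Bg (2 ^ (a + 1))) =
          (HNNExtension.of (Multiplicative.ofAdd 1)) ^ g.toAdd := by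
        rw [← map_zpow, ← ofAdd_zsmul]
        simp
      rw [h1, map_zpow, map_zpow, hβ1, y4]
      exact x2.cz.zpow_right _
    | t =>
      rw [hβ2, map_mul, map_mul, map_inv, map_s, y1, y2, y7, x1]
      have h1 := hk _ List.mem_cons_self
      rw [lift_W] at h1
      rw [Commute, SemiconjBy]
      rw [mul_inv_eq_one, mul_inv_eq_iff_eq_mul] at h1
      exact h1
    | mul w w' h1 h2 => rw [map_mul, map_mul]; exact h1.mul_right h2
    | inv w h1 => rw [map_inv, map_inv]; exact h1.inv_right)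
  have e1 : ∀ y, Ψ (Φ y) = y := by
    intro y
    have : Ψ.comp Φ = MonoidHom.id G := by
      apply PresentedGroup.ext
      intro g
      rw [MonoidHom.comp_apply, hΦ]
      rcases g with j | p | i | m
      · change Ψ (o (X _)) = _
        rw [Ψ1, y1, x1]
        rfl
      · change Ψ (o (t p)) = _
        rw [Ψ1, y2]
        rfl
      · change Ψ (o (r i)) = _
        rw [Ψ1, y3]
        rfl
      · fin_cases m
        · change Ψ (o z) = _
          rw [Ψ1, y4]
          rfl
        · change Ψ (o u) = _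
          rw [Ψ1, y5]
          rfl
        · change Ψ (o v) = _
          rw [Ψ1, y6]
          rfl
        · change Ψ (o τ) = _
          rw [Ψ1, y7]
          rfl
        · change Ψ c = _
          rw [Ψ2]
          rfl
    exact DFunLike.congr_fun this y
  have e2 : ∀ y, Φ (Ψ y) = y := by
    have g1 : (⊤ : Subgroup U) ≤ MonoidHom.eqLocus ((Φ.comp Ψ).comp o) o := by
      rw [← hU.cl, Subgroup.closure_le]
      have gX : ∀ w : J → ℤ, Φ (Ψ (o (X (Multiplicative.ofAdd w)))) =
          o (X (Multiplicative.ofAdd w)) := by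
        have : ((Φ.comp Ψ).comp (o.comp X)) = o.comp X := by
          have h2 : ∀ w : J → ℤ, (Multiplicative.ofAdd w : Multiplicative (J → ℤ)) ∈
              MonoidHom.eqLocus ((Φ.comp Ψ).comp (o.comp X)) (o.comp X) := by
            intro w
            have h3 : w = ∑ j, w j • (Pi.single j 1 : J → ℤ) := by
              ext j
              simp [Finset.sum_apply, Pi.single_apply]
            rw [h3, ofAdd_sum]
            apply Subgroup.prod_mem
            intro j _
            rw [ofAdd_zsmul]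
            apply Subgroup.zpow_mem
            change Φ (Ψ (o (X _))) = o (X _)
            rw [Ψ1, y1, x1, hΦ]
          apply MonoidHom.ext
          intro w
          exact h2 w.toAdd
        intro w
        exact DFunLike.congr_fun this (Multiplicative.ofAdd w)
      rintro y (((⟨w, rfl⟩ | ⟨p, rfl⟩) | ⟨i, rfl⟩) | hy)
      · exact gX w.toAdd
      · change Φ (Ψ (o (t p))) = o (t p)
        rw [Ψ1, y2, hΦ]
      · change Φ (Ψ (o (r i))) = o (r i)
        rw [Ψ1, y3, hΦ]
      · rcases hy with rfl | rfl | rfl | hy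
        · change Φ (Ψ (o y)) = o y
          rw [Ψ1, y4, hΦ]
          rfl
        · change Φ (Ψ (o y)) = o y
          rw [Ψ1, y5, hΦ]
          rfl
        · change Φ (Ψ (o y)) = o y
          rw [Ψ1, y6, hΦ]
          rfl
        · rw [Set.mem_singleton_iff.1 hy]
          change Φ (Ψ (o τ)) = o τ
          rw [Ψ1, y7, hΦ]
          rfl
    intro y
    have h1 : Subgroup.closure (Set.range o ∪ {c}) ≤
        MonoidHom.eqLocus (Φ.comp Ψ) (MonoidHom.id _) := by
      rw [Subgroup.closure_le]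
      rintro y (⟨w, rfl⟩ | hy)
      · exact g1 (Subgroup.mem_top w)
      · rw [Set.mem_singleton_iff.1 hy]
        change Φ (Ψ c) = c
        rw [Ψ2, hΦ]
        rfl
    exact h1 (show y ∈ Subgroup.closure (Set.range o ∪ {c}) by rw [a3]; trivial)
  exact ⟨MulEquiv.mk' ⟨Φ, Ψ, e1, e2⟩ (map_mul Φ)⟩

theorem final (hA : StmArith) (hG : StmGraph) (hK : StmK) (hT : StmTower) (hAm : StmAmUP)
    (hI : StmInv) (hC : StmCode) (hP : StmPres) (hRE : StmRE)
    (E : ℕ × List (List (ℕ × Bool)) → ℕ × List (List (ℕ × Bool)) → Prop)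
    (hE : ∀ a b, E a b ↔ Nonempty (PG a ≃* PG b)) :
    REPred (fun p : (ℕ × List (List (ℕ × Bool))) × (ℕ × List (List (ℕ × Bool))) => E p.1 p.2) ∧
      ∀ R : ℕ → ℕ → Prop, Equivalence R → REPred (fun p : ℕ × ℕ => R p.1 p.2) →
        ∃ f : ℕ → ℕ × List (List (ℕ × Bool)), Computable f ∧ ∀ x y, R x y ↔ E (f x) (f y) := by
  constructor
  · have : (fun p : (ℕ × List (List (ℕ × Bool))) × (ℕ × List (List (ℕ × Bool))) => E p.1 p.2) =
        fun p => Nonempty (PG p.1 ≃* PG p.2) := by
      funext p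
      exact propext (hE p.1 p.2)
    rw [this]
    exact hRE
  · intro R hR hRE'
    obtain ⟨X0, iX, n0, m0, L0, hnm, hdef⟩ := hA R hRE'
    obtain ⟨P, ι, J, iP, iι, iJ, iD, D, B, e, hconn⟩ := hG R hR X0 n0 m0 L0 hnm hdef
    obtain ⟨U, iU, X, t, r, z, u, v, τ, hU⟩ := stageU hK hT R hR D B e hconn
    obtain ⟨L, hL⟩ := hP P ι J D B e
    obtain ⟨f, hf, hiso⟩ := hC (Gen P ι J) (Sum.inr (Sum.inr (Sum.inr 4))) (Sum.inl e)
      (Sum.inr (Sum.inl B)) (Sum.inr (Sum.inr (Sum.inr 3))) L
    refine ⟨f, hf, fun n m => ?_⟩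
    rw [hE]
    classical
    have hex : ∀ n, ∃ a, R n a := fun n => ⟨n, hR.refl n⟩
    have hsp : ∀ n, R n (Nat.find (hex n)) := fun n => Nat.find_spec (hex n)
    have hmin : ∀ n b, R n b → Nat.find (hex n) ≤ b := fun n b hb => Nat.find_min' (hex n) hb
    have hPG : ∀ (n a : ℕ) (β : Bg (2 ^ (a + 1)) →* U)
        (_ : β (HNNExtension.of (Multiplicative.ofAdd 1)) = z)
        (_ : β HNNExtension.t = s (X (Multiplicative.ofAdd (Pi.single e 1))) (t B) n * τ *
        (s (X (Multiplicative.ofAdd (Pi.single e 1))) (t B) n)⁻¹),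
        Nonempty (PG (f n) ≃* Amal β) := by
      intro n a β h1 h2
      obtain ⟨i1⟩ := hiso n
      obtain ⟨i2⟩ := stageA hAm D B e L hL hU n a β h1 h2
      exact ⟨i1.trans i2⟩
    constructor
    · intro hnm'
      have hmn : R m (Nat.find (hex n)) := hR.trans (hR.symm hnm') (hsp n)
      obtain ⟨β, b1, b2, b3⟩ := hU.beta n _ (hsp n) (hmin n)
      obtain ⟨β', b1', b2', b3'⟩ := hU.beta m _ hmn (fun b hb => hmin n b (hR.trans hnm' hb))
      obtain ⟨i1⟩ := hPG n _ β b2 b3
      obtain ⟨i2⟩ := hPG m _ β' b2' b3'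
      obtain ⟨ρ, r1, r2, r3⟩ := hU.conn n m hnm'
      obtain ⟨i3⟩ := amal_conj hAm β β' ρ (by
        intro w
        have hh : β = (MulAut.conj ρ).toMonoidHom.comp β' := by
          apply HNNExtension.hom_ext
          · apply MonoidHom.ext
            intro g
            have h1 : (HNNExtension.of g : Bg (2 ^ (Nat.find (hex n) + 1))) =
                (HNNExtension.of (Multiplicative.ofAdd 1)) ^ g.toAdd := by
              rw [← map_zpow, ← ofAdd_zsmul]
              simp
            change β (HNNExtension.of g) = ρ * β' (HNNExtension.of g) * ρ⁻¹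
            rw [h1, map_zpow, map_zpow, b2, b2', ← (r1.zpow_left _).eq]
            group
          · change β HNNExtension.t = ρ * β' HNNExtension.t * ρ⁻¹
            rw [b3, b3', r3]
            set S := s (X (Multiplicative.ofAdd (Pi.single e 1))) (t B) m with hS
            have h2 : ρ⁻¹ * τ * ρ = τ := by rw [mul_assoc, r2.eq]; group
            calc ρ * S * ρ⁻¹ * τ * (ρ * S * ρ⁻¹)⁻¹ = ρ * S * (ρ⁻¹ * τ * ρ) * S⁻¹ * ρ⁻¹ := by group
              _ = _ := by rw [h2]; group
        have := DFunLike.congr_fun hh w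
        exact this)
      exact ⟨(i1.trans i3).trans i2.symm⟩
    · rintro ⟨i⟩
      obtain ⟨β, b1, b2, b3⟩ := hU.beta n _ (hsp n) (hmin n)
      obtain ⟨β', b1', b2', b3'⟩ := hU.beta m _ (hsp m) (hmin m)
      obtain ⟨i1⟩ := hPG n _ β b2 b3
      obtain ⟨i2⟩ := hPG m _ β' b2' b3'
      have h1 := hI U _ _ β β' hU.tf b1 b1' ⟨(i1.symm.trans i).trans i2⟩
      have h2 := hsp n
      rw [h1] at h2
      exact hR.trans h2 (hR.symm (hsp m))

end Pool.Agent.X192.ISO
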