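import Pool.Agent.Y817.ISO.Stm

set_option autoImplicit false

/-! # The model for the lower storeys of the tower -/

namespace Pool.Agent.X192.ISO.GM

open Pool.Agent.Y817.ISO SemidirectProduct

section

variable {K : Type} [Group K] (Q : Subgroup K)

/-- rational functions on the cosets -/
abbrev N : Type := Multiplicative (K ⧸ Q → ℚ)

/-- translation and scaling -/
def sh (k : K) (j : ℤ) (f : K ⧸ Q → ℚ) : K ⧸ Q → ℚ := fun c => 2 ^ (-j) * f (k⁻¹ • c)

variable {Q}

lemma sh_sh (k k' : K) (j j' : ℤ) (f : K ⧸ Q → ℚ) :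
    sh Q k j (sh Q k' j' f) = sh Q (k * k') (j + j') f := by
  funext c
  unfold sh
  rw [mul_inv_rev, mul_smul, neg_add, zpow_add₀ (by norm_num : (2 : ℚ) ≠ 0), mul_assoc]

lemma sh_one (f : K ⧸ Q → ℚ) : sh Q 1 0 f = f := by
  funext c
  simp [sh]

lemma sh_add (k : K) (j : ℤ) (f f' : K ⧸ Q → ℚ) :
    sh Q k j (f + f') = sh Q k j f + sh Q k j f' := by
  funext c
  simp [sh, mul_add]

variable (Q)

/-- as an automorphism -/
def shE (k : K) (j : ℤ) : MulAut (N Q) where
  toFun f := Multiplicative.ofAdd (sh Q k j f.toAdd)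
  invFun f := Multiplicative.ofAdd (sh Q k⁻¹ (-j) f.toAdd)
  left_inv f := by
    change Multiplicative.ofAdd (sh Q k⁻¹ (-j) (sh Q k j f.toAdd)) = f
    rw [sh_sh, inv_mul_cancel, neg_add_cancel, sh_one]
    rfl
  right_inv f := by
    change Multiplicative.ofAdd (sh Q k j (sh Q k⁻¹ (-j) f.toAdd)) = f
    rw [sh_sh, mul_inv_cancel, add_neg_cancel, sh_one]
    rfl
  map_mul' f f' := by
    change Multiplicative.ofAdd (sh Q k j (f.toAdd + f'.toAdd)) = _
    rw [sh_add]
    rfl

/-- the action -/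
def ac : K × Multiplicative ℤ →* MulAut (N Q) where
  toFun kj := shE Q kj.1 kj.2.toAdd
  map_one' := by
    apply MulEquiv.ext
    intro f
    change Multiplicative.ofAdd (sh Q 1 0 f.toAdd) = f
    rw [sh_one]
    rfl
  map_mul' a b := by
    apply MulEquiv.ext
    intro f
    change Multiplicative.ofAdd (sh Q (a.1 * b.1) (a.2.toAdd + b.2.toAdd) f.toAdd) =
      Multiplicative.ofAdd (sh Q a.1 a.2.toAdd (sh Q b.1 b.2.toAdd f.toAdd))
    rw [sh_sh]

/-- the group -/
abbrev M : Type := N Q ⋊[ac Q] (K × Multiplicative ℤ)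

open Classical in
/-- the indicator function of a coset -/
noncomputable def ind (c : K ⧸ Q) : K ⧸ Q → ℚ := fun d => if d = c then 1 else 0

variable {Q}

lemma sh_ind (k : K) (j : ℤ) (c : K ⧸ Q) :
    sh Q k j (ind Q c) = (2 : ℚ) ^ (-j) • ind Q (k • c) := by
  funext d
  simp only [sh, ind, Pi.smul_apply, smul_eq_mul]
  by_cases h : d = k • c
  · have h' : k⁻¹ • d = c := by rw [h, inv_smul_smul]
    rw [if_pos h, if_pos h']
  · have h' : ¬ k⁻¹ • d = c := by
      intro h1
      apply h
      rw [← h1, smul_inv_smul]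
    rw [if_neg h, if_neg h']

lemma sh_smul (k : K) (j : ℤ) (r : ℚ) (f : K ⧸ Q → ℚ) : sh Q k j (r • f) = r • sh Q k j f := by
  funext c
  simp only [sh, Pi.smul_apply, smul_eq_mul]
  ring

lemma conj_inl (k : K) (j : ℤ) (f : K ⧸ Q → ℚ) :
    (inr (k, Multiplicative.ofAdd j) : M Q) * inl (Multiplicative.ofAdd f) *
      (inr (k, Multiplicative.ofAdd j))⁻¹ = inl (Multiplicative.ofAdd (sh Q k j f)) := by
  rw [← map_inv, ← inl_aut]
  rfl

end

theorem gmodel : StmGModel := by
  intro K _ Q Rr π x t hB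
  let q0 : K ⧸ Q := ((1 : K) : K ⧸ Q)
  have hq0 : ∀ k : K, k • q0 = (k : K ⧸ Q) := by
    intro k
    change ((k * 1 : K) : K ⧸ Q) = _
    rw [mul_one]
  have hqQ : ∀ q ∈ Q, q • q0 = q0 := by
    intro q hq
    rw [hq0]
    exact (QuotientGroup.eq (s := Q)).2 (by rw [mul_one]; exact Q.inv_mem hq)
  let φ : K →* M Q := inr.comp (MonoidHom.inl K (Multiplicative ℤ))
  let z : M Q := inl (Multiplicative.ofAdd (ind Q q0))
  let u : M Q := inr (1, Multiplicative.ofAdd 1)
  have hφ : ∀ k, φ k = inr (k, 1) := fun k => rfl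
  have hcz : ∀ (k : K) (j : ℤ), (inr (k, Multiplicative.ofAdd j) : M Q) * z *
      (inr (k, Multiplicative.ofAdd j))⁻¹ =
        inl (Multiplicative.ofAdd ((2 : ℚ) ^ (-j) • ind Q (k • q0))) := by
    intro k j
    rw [conj_inl, sh_ind]
  have hzpow : ∀ (f : K ⧸ Q → ℚ) (a : ℤ), (inl (Multiplicative.ofAdd f) : M Q) ^ a =
      inl (Multiplicative.ofAdd ((a : ℚ) • f)) := by
    intro f a
    rw [← map_zpow, ← ofAdd_zsmul]
    have : a • f = (a : ℚ) • f := by
      funext c
      simp
    rw [this]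
  refine ⟨M Q, inferInstance, φ, z, u, ?_, ?_, ?_, ?_⟩
  · intro q hq
    have h := hcz q 0
    rw [hqQ q hq] at h
    simp only [neg_zero, zpow_zero, one_smul] at h
    have h2 : φ q * z * (φ q)⁻¹ = z := h
    rw [Commute, SemiconjBy]
    calc z * φ q = (φ q * z * (φ q)⁻¹) * φ q := by rw [h2]
      _ = φ q * z := by group
  · intro k
    change (inr _ : M Q) * inr _ = inr _ * inr _
    rw [← map_mul, ← map_mul]
    congr 1
    ext <;> simp
  · have h := hcz 1 (-1)
    have e : (inr ((1 : K), Multiplicative.ofAdd (-1 : ℤ)) : M Q) = u⁻¹ := by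
      change _ = (inr _ : M Q)⁻¹
      rw [← map_inv]
      congr 1
      ext <;> simp
    rw [e, inv_inv] at h
    rw [h]
    have h2 := hzpow (ind Q q0) 2
    have h3 : z ^ 2 = z ^ (2 : ℤ) := by norm_cast
    rw [h3, h2]
    simp
  · intro n hnc a ha g hg
    set sn := s x t n with hsn
    -- the cosets
    let c : ℤ → K ⧸ Q := fun j => ((x ^ (-j) * t⁻¹ : K) : K ⧸ Q)
    let V : AddSubgroup (K ⧸ Q → ℚ) := AddSubgroup.closure
      (Set.range (fun j : ℤ => (2 : ℚ) ^ (j + 1) • ind Q (c j)))
    have hV : ∀ k : ℤ, ∀ f ∈ V, sh Q (x ^ k) k f ∈ V := by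
      intro k f hf
      induction hf using AddSubgroup.closure_induction with
      | mem y hy =>
        obtain ⟨j, rfl⟩ := hy
        apply AddSubgroup.subset_closure
        refine ⟨j - k, ?_⟩
        dsimp only
        rw [sh_smul, sh_ind, smul_smul, ← zpow_add₀ (by norm_num : (2 : ℚ) ≠ 0)]
        congr 1
        · congr 1; ring
        · congr 1
          change _ = ((x ^ k * (x ^ (-j) * t⁻¹) : K) : K ⧸ Q)
          rw [← mul_assoc, ← zpow_add]
          change ((x ^ (-(j - k)) * t⁻¹ : K) : K ⧸ Q) = _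
          congr 3
          ring
      | zero =>
        have : sh Q (x ^ k) k 0 = 0 := by funext c; simp [sh]
        rw [this]
        exact V.zero_mem
      | add f f' _ _ h h' =>
        rw [sh_add]
        exact V.add_mem h h'
      | neg f _ h =>
        have : sh Q (x ^ k) k (-f) = - sh Q (x ^ k) k f := by funext c; simp [sh]
        rw [this]
        exact V.neg_mem h
    have P1 : ∀ y ∈ Subgroup.closure {φ x * u, (φ t)⁻¹ * z ^ 2 * φ t},
        y.right.1 = x ^ (y.right.2.toAdd) ∧ y.left.toAdd ∈ V := by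
      intro y hy
      induction hy using Subgroup.closure_induction with
      | mem y hy =>
        rcases hy with hy | hy
        · rw [hy]
          have e : φ x * u = inr (x, Multiplicative.ofAdd 1) := by
            change (inr _ : M Q) * inr _ = _
            rw [← map_mul]
            congr 1
            ext <;> simp
          rw [e]
          refine ⟨by simp, ?_⟩
          rw [left_inr]
          exact V.zero_mem
        · rw [Set.mem_singleton_iff.1 hy]
          have e : (φ t)⁻¹ * z ^ 2 * φ t =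
              inl (Multiplicative.ofAdd ((2 : ℚ) ^ ((0 : ℤ) + 1) • ind Q (c 0))) := by
            have h3 : z ^ 2 = z ^ (2 : ℤ) := by norm_cast
            rw [h3, hzpow]
            have e2 : φ t = (inr (t⁻¹, Multiplicative.ofAdd 0))⁻¹ := by
              rw [← map_inv]
              change (inr _ : M Q) = _
              congr 1
              ext <;> simp
            rw [e2, inv_inv, conj_inl, sh_smul, sh_ind, hq0]
            simp [c]
          rw [e]
          refine ⟨by simp, ?_⟩
          rw [left_inl]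
          exact AddSubgroup.subset_closure ⟨0, rfl⟩
      | one => exact ⟨by simp, V.zero_mem⟩
      | mul y y' _ _ h h' =>
        refine ⟨?_, ?_⟩
        · rw [mul_right, Prod.fst_mul, Prod.snd_mul, h.1, h'.1, toAdd_mul, zpow_add]
        · rw [mul_left]
          change y.left.toAdd + sh Q y.right.1 y.right.2.toAdd y'.left.toAdd ∈ V
          rw [h.1]
          exact V.add_mem h.2 (hV _ _ h'.2)
      | inv y _ h =>
        refine ⟨?_, ?_⟩
        · rw [inv_right, Prod.fst_inv, Prod.snd_inv, h.1, toAdd_inv, zpow_neg]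
        · rw [inv_left]
          change sh Q y.right.1⁻¹ (-y.right.2.toAdd) (-y.left.toAdd) ∈ V
          rw [h.1, ← zpow_neg]
          exact hV _ _ (V.neg_mem h.2)
    have P2 : ∀ y ∈ Subgroup.closure (Set.range φ ∪ {z}), y.right.2 = 1 := by
      intro y hy
      have h1 : Subgroup.closure (Set.range φ ∪ {z}) ≤
          ((MonoidHom.snd K (Multiplicative ℤ)).comp (rightHom (φ := ac Q))).ker := by
        rw [Subgroup.closure_le]
        rintro w (⟨k, rfl⟩ | hw)
        · rfl
        · rw [Set.mem_singleton_iff.1 hw]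
          rfl
      exact h1 hy
    -- the value of functions of `V` at the coset of `sn`
    have hπx : π x = x := hB.fix x hB.x_mem
    have hπs : ∀ j, π (s x t j) = 1 := by
      intro j
      unfold s
      rw [map_mul, map_mul, map_zpow, map_zpow, hπx, hB.t_one, mul_one, ← zpow_add]
      simp
    have hπr : ∀ ρ ∈ Rr, π ρ = ρ := fun ρ hρ => hB.fix ρ (hB.le hρ)
    have hcs : ∀ j, c j = (((s x t j)⁻¹ : K) : K ⧸ Q) := by
      intro j
      refine (QuotientGroup.eq (s := Q)).2 ?_
      have : (x ^ (-j) * t⁻¹)⁻¹ * (s x t j)⁻¹ = x ^ j := by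
        unfold s
        simp only [mul_inv_rev, inv_inv, zpow_neg]
        group
      rw [this]
      exact Q.zpow_mem hB.x_mem j
    have hconn : ∀ j, ∀ ρ ∈ Rr, c j = ((ρ * sn⁻¹ : K) : K ⧸ Q) → Conn Rr x t n j := by
      intro j ρ hρ h
      rw [hcs] at h
      have h1 := (QuotientGroup.eq (s := Q)).1 h
      set q := ((s x t j)⁻¹)⁻¹ * (ρ * sn⁻¹) with hq
      have h2 : π q = q := hB.fix q h1
      have h3 : π q = ρ := by
        rw [hq]
        simp only [map_mul, map_inv, hπs, hsn, hπr ρ hρ]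
        simp
      rw [h3] at h2
      rw [inv_inv] at hq
      refine ⟨ρ⁻¹, Rr.inv_mem hρ, ?_⟩
      rw [← hsn, inv_inv]
      have h4 : ρ = s x t j * (ρ * sn⁻¹) := by rw [← hq]; exact h2
      calc sn = ρ⁻¹ * (ρ) * sn := by group
        _ = ρ⁻¹ * (s x t j * (ρ * sn⁻¹)) * sn := by rw [← h4]
        _ = _ := by group
    have hval : ∀ f ∈ V, ∀ ρ ∈ Rr, ∃ b : ℤ, f ((ρ * sn⁻¹ : K) : K ⧸ Q) = g * b := by
      intro f hf ρ hρ
      induction hf using AddSubgroup.closure_induction with
      | mem y hy =>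
        obtain ⟨j, rfl⟩ := hy
        simp only [Pi.smul_apply, ind, smul_eq_mul]
        split_ifs with hc
        · have hC := hconn j ρ hρ hc.symm
          have h0 := hnc j hC
          obtain ⟨b, hb⟩ := hg j hC
          refine ⟨b, ?_⟩
          obtain ⟨j', rfl⟩ := Int.eq_ofNat_of_zero_le h0
          rw [Int.toNat_natCast] at hb
          rw [mul_one]
          have h5 : ((2 : ℚ) ^ ((j' : ℤ) + 1)) = ((2 ^ (j' + 1) : ℤ) : ℚ) := by
            push_cast
            norm_cast
          rw [h5, hb]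
          push_cast
          rfl
        · exact ⟨0, by simp⟩
      | zero => exact ⟨0, by simp⟩
      | add f f' _ _ h h' =>
        obtain ⟨b, hb⟩ := h
        obtain ⟨b', hb'⟩ := h'
        exact ⟨b + b', by rw [Pi.add_apply, hb, hb']; push_cast; ring⟩
      | neg f _ h =>
        obtain ⟨b, hb⟩ := h
        exact ⟨-b, by rw [Pi.neg_apply, hb]; push_cast; ring⟩
    -- the invariant
    have P3 : ∀ y ∈ Subgroup.closure
        (((Subgroup.closure {φ x * u, (φ t)⁻¹ * z ^ 2 * φ t} ⊓
          Subgroup.closure (Set.range φ ∪ {z}) : Subgroup (M Q)) : Set (M Q)) ∪ φ '' Rr),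
        y.right.2 = 1 ∧ y.right.1 ∈ Rr ∧
          ∀ ρ ∈ Rr, ∃ b : ℤ, y.left.toAdd ((ρ * sn⁻¹ : K) : K ⧸ Q) = g * b := by
      intro y hy
      induction hy using Subgroup.closure_induction with
      | mem y hy =>
        rcases hy with ⟨h1, h2⟩ | ⟨ρ, hρ, rfl⟩
        · have h3 := P1 y h1
          have h4 := P2 y h2
          refine ⟨h4, ?_, hval _ h3.2⟩
          rw [h3.1, h4]
          simp [Rr.one_mem]
        · refine ⟨rfl, hρ, fun ρ' hρ' => ⟨0, ?_⟩⟩
          rw [hφ, left_inr]
          simp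
      | one => exact ⟨rfl, Rr.one_mem, fun _ _ => ⟨0, by simp⟩⟩
      | mul y y' _ _ h h' =>
        refine ⟨?_, Rr.mul_mem h.2.1 h'.2.1, ?_⟩
        · rw [mul_right, Prod.snd_mul, h.1, h'.1, one_mul]
        · intro ρ hρ
          obtain ⟨b, hb⟩ := h.2.2 ρ hρ
          obtain ⟨b', hb'⟩ := h'.2.2 (y.right.1⁻¹ * ρ) (Rr.mul_mem (Rr.inv_mem h.2.1) hρ)
          refine ⟨b + b', ?_⟩
          rw [mul_left]
          change y.left.toAdd _ + sh Q y.right.1 y.right.2.toAdd y'.left.toAdd _ = _
          rw [hb, h.1]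
          have e : sh Q y.right.1 (Multiplicative.toAdd 1) y'.left.toAdd
              ((ρ * sn⁻¹ : K) : K ⧸ Q) =
              y'.left.toAdd ((y.right.1⁻¹ * ρ * sn⁻¹ : K) : K ⧸ Q) := by
            unfold sh
            rw [toAdd_one, neg_zero, zpow_zero, one_mul, mul_assoc]
            rfl
          rw [e, hb']
          push_cast
          ring
      | inv y _ h =>
        refine ⟨?_, Rr.inv_mem h.2.1, ?_⟩
        · rw [inv_right, Prod.snd_inv, h.1, inv_one]
        · intro ρ hρ
          obtain ⟨b, hb⟩ := h.2.2 (y.right.1 * ρ) (Rr.mul_mem h.2.1 hρ)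
          refine ⟨-b, ?_⟩
          rw [inv_left]
          change sh Q y.right.1⁻¹ (-y.right.2.toAdd) (-y.left.toAdd) _ = _
          rw [h.1]
          have e : sh Q y.right.1⁻¹ (-Multiplicative.toAdd 1) (-y.left.toAdd)
              ((ρ * sn⁻¹ : K) : K ⧸ Q) =
              - y.left.toAdd ((y.right.1 * ρ * sn⁻¹ : K) : K ⧸ Q) := by
            unfold sh
            rw [toAdd_one, neg_zero, neg_zero, zpow_zero, one_mul, mul_assoc, inv_inv]
            rfl
          rw [e, hb]
          push_cast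
          ring
    have hy := (P3 _ ha).2.2 1 Rr.one_mem
    obtain ⟨b, hb⟩ := hy
    have e : ((φ sn)⁻¹ * z * φ sn) ^ a =
        inl (Multiplicative.ofAdd ((a : ℚ) • ind Q ((sn⁻¹ : K) : K ⧸ Q))) := by
      have h := hcz sn⁻¹ 0
      have e2 : φ sn = (inr (sn⁻¹, Multiplicative.ofAdd 0))⁻¹ := by
        rw [← map_inv]
        change (inr _ : M Q) = _
        congr 1
        ext <;> simp
      rw [e2, inv_inv, h, hzpow, hq0]
      simp
    rw [e, left_inl, one_mul] at hb
    simp only [toAdd_ofAdd, Pi.smul_apply, ind, if_true, smul_eq_mul, mul_one] at hb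
    exact ⟨b, by exact_mod_cast hb⟩

end Pool.Agent.X192.ISO.GM
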