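import Pool.Agent.X192.ISO.Low

set_option autoImplicit false

/-! # The tower: upper part -/

namespace Pool.Agent.X192.ISO

open HNNExtension Pool.Agent.Y817.ISO

section

variable {K G : Type} [Group K] [Group G] (k : K →* G) (z u : G)

lemma zsm (x tk : K) (hxz : Commute z (k x)) (hux : Commute u (k x)) (huz : u⁻¹ * z * u = z ^ 2)
    (hut : Commute u (k tk)) (m : ℕ) :
    ((k (s x tk m))⁻¹ * z * k (s x tk m)) ^ (2 ^ (m + 1)) =
      (k x * u) ^ (-(m : ℤ)) * ((k tk)⁻¹ * z ^ 2 * k tk) * (k x * u) ^ (m : ℤ) := by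
  have h1 : ∀ m : ℕ, u ^ (-(m : ℤ)) * z ^ 2 * u ^ (m : ℤ) = z ^ (2 ^ (m + 1)) := by
    intro m
    induction m with
    | zero => simp
    | succ m ih =>
      have e1 : u ^ (-((m + 1 : ℕ) : ℤ)) * z ^ 2 * u ^ (((m + 1 : ℕ) : ℤ)) =
          u⁻¹ * (u ^ (-(m : ℤ)) * z ^ 2 * u ^ (m : ℤ)) * u := by
        push_cast
        rw [neg_add, zpow_add, zpow_add, zpow_neg_one, zpow_one,
          (Commute.refl u).inv_right.zpow_left (-(m : ℤ))]
        simp only [mul_assoc]
      have e2 : ∀ j : ℕ, u⁻¹ * z ^ j * u = (z ^ 2) ^ j := by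
        intro j
        rw [← huz]
        have := conj_pow (i := j) (a := u⁻¹) (b := z)
        rw [inv_inv] at this
        exact this.symm
      rw [e1, ih, e2, ← pow_mul]
      congr 1
      ring
  have h2 : (k (s x tk m))⁻¹ * z * k (s x tk m) =
      (k x) ^ (-(m : ℤ)) * ((k tk)⁻¹ * z * k tk) * (k x) ^ (m : ℤ) := by
    have e1 : k x ^ (m : ℤ) * z * k x ^ (-(m : ℤ)) = z := by
      rw [← (hxz.zpow_right (m : ℤ)).eq, mul_assoc, ← zpow_add]
      simp
    unfold s
    simp only [map_mul, map_zpow, mul_inv_rev]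
    rw [zpow_neg (k x), inv_inv]
    calc (k x ^ (m : ℤ))⁻¹ * ((k tk)⁻¹ * k x ^ (m : ℤ)) * z *
          ((k x ^ (m : ℤ))⁻¹ * k tk * k x ^ (m : ℤ)) =
        (k x ^ (m : ℤ))⁻¹ * ((k tk)⁻¹ * (k x ^ (m : ℤ) * z * k x ^ (-(m : ℤ))) * k tk) *
          k x ^ (m : ℤ) := by
          rw [zpow_neg]
          group
      _ = _ := by rw [e1]
  have h3 : ∀ j : ℕ, ((k x) ^ (-(m : ℤ)) * ((k tk)⁻¹ * z * k tk) * (k x) ^ (m : ℤ)) ^ j =
      (k x) ^ (-(m : ℤ)) * ((k tk)⁻¹ * z ^ j * k tk) * (k x) ^ (m : ℤ) := by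
    intro j
    have := conj_pow (i := j) (a := (k x) ^ (-(m : ℤ)) * (k tk)⁻¹) (b := z)
    have e : ∀ y : G, (k x) ^ (-(m : ℤ)) * (k tk)⁻¹ * y * ((k x) ^ (-(m : ℤ)) * (k tk)⁻¹)⁻¹ =
        (k x) ^ (-(m : ℤ)) * ((k tk)⁻¹ * y * k tk) * (k x) ^ (m : ℤ) := by
      intro y
      rw [zpow_neg]
      group
    rw [e, e] at this
    exact this
  rw [h2, h3, ← h1]
  have h4 : ∀ j : ℤ, (k x * u) ^ j = k x ^ j * u ^ j := fun j =>
    (hux.symm : Commute (k x) u).mul_zpow j
  rw [h4, h4]
  have e5 : (k tk)⁻¹ * (u ^ (-(m : ℤ)) * z ^ 2 * u ^ (m : ℤ)) * k tk =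
      u ^ (-(m : ℤ)) * ((k tk)⁻¹ * z ^ 2 * k tk) * u ^ (m : ℤ) := by
    have e6 : (k tk)⁻¹ * u ^ (-(m : ℤ)) = u ^ (-(m : ℤ)) * (k tk)⁻¹ :=
      ((hut.zpow_left (-(m : ℤ))).inv_right.eq).symm
    have e7 : u ^ (m : ℤ) * k tk = k tk * u ^ (m : ℤ) := (hut.zpow_left (m : ℤ)).eq
    calc (k tk)⁻¹ * (u ^ (-(m : ℤ)) * z ^ 2 * u ^ (m : ℤ)) * k tk =
        ((k tk)⁻¹ * u ^ (-(m : ℤ))) * z ^ 2 * (u ^ (m : ℤ) * k tk) := by group
      _ = _ := by rw [e6, e7]; group
  rw [e5]
  simp only [mul_assoc]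
  rw [((hux.zpow_left (m : ℤ)).zpow_right (m : ℤ)).eq]

end

/-- the tower -/
theorem tower (hGM : StmGModel) : StmTower := by
  intro K _ Q Rr π x tk hB
  obtain ⟨G, iG, k, z, u, htf, hk, hz1, hzq, huk, huz, hcl, hup⟩ := low K Q hB.tf
  set S3 : Subgroup G := Subgroup.closure {k x * u, (k tk)⁻¹ * z ^ 2 * k tk} with hS3
  set M : Subgroup G := Subgroup.closure (Set.range k ∪ {z}) with hM
  set X4 : Set (CE G S3) := (fun g : G => (t * of g * t⁻¹ : CE G S3)) '' M ∪
    (fun g : G => (of g : CE G S3)) '' (Rr.map k) with hX4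
  set S4 : Subgroup (CE G S3) := Subgroup.closure X4 with hS4
  have hvS : ∀ g ∈ S3, Commute (t : CE G S3) (of g) := ce_comm S3
  have hτS : ∀ g ∈ S4, Commute (t : CE (CE G S3) S4) (of g) := ce_comm S4
  have hkM : ∀ a, k a ∈ M := fun a => Subgroup.subset_closure (Or.inl ⟨a, rfl⟩)
  have hzM : z ∈ M := Subgroup.subset_closure (Or.inr rfl)
  refine ⟨CE (CE G S3) S4, inferInstance, (of.comp of).comp k, of (of z), of (of u), of t, t,
    tf_hnn _ (tf_hnn _ htf), ?_, ?_, ?_, ?_⟩
  · refine ⟨?_, ?_, ?_, ?_, ?_, ?_, ?_, ?_⟩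
    · intro q hq
      exact ((hzq q hq).map of).map of
    · intro a
      exact ((huk a).map of).map of
    · rw [← map_inv, ← map_inv, ← map_mul, ← map_mul, ← map_mul, ← map_mul, huz, map_pow, map_pow]
    · have h := (hvS (k x * u) (Subgroup.subset_closure (Or.inl rfl))).map (of : _ →* CE (CE G S3) S4)
      rw [map_mul, map_mul] at h
      exact h
    · have h := (hvS ((k tk)⁻¹ * z ^ 2 * k tk) (Subgroup.subset_closure (Or.inr rfl))).map
        (of : _ →* CE (CE G S3) S4)
      simp only [map_mul, map_inv, map_pow] at h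
      exact h
    · intro a
      have h := hτS (t * of (k a) * t⁻¹) (Subgroup.subset_closure (Or.inl ⟨k a, hkM a, rfl⟩))
      simp only [map_mul, map_inv] at h
      exact h
    · have h := hτS (t * of z * t⁻¹) (Subgroup.subset_closure (Or.inl ⟨z, hzM, rfl⟩))
      simp only [map_mul, map_inv] at h
      exact h
    · intro ρ hρ
      exact hτS (of (k ρ)) (Subgroup.subset_closure (Or.inr ⟨k ρ, ⟨ρ, hρ, rfl⟩, rfl⟩))
  · set C := Subgroup.closure (Set.range ((((of : _ →* CE (CE G S3) S4).comp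
      (of : _ →* CE G S3)).comp k)) ∪ {of (of z), of (of u), of t, t}) with hC
    have m1 : of (of z) ∈ C := Subgroup.subset_closure (Or.inr (Or.inl rfl))
    have m2 : of (of u) ∈ C := Subgroup.subset_closure (Or.inr (Or.inr (Or.inl rfl)))
    have m3 : of t ∈ C := Subgroup.subset_closure (Or.inr (Or.inr (Or.inr (Or.inl rfl))))
    have m4 : t ∈ C := Subgroup.subset_closure (Or.inr (Or.inr (Or.inr (Or.inr rfl))))
    have h1 : (C.comap (of : _ →* CE (CE G S3) S4)).comap (of : _ →* CE G S3) = ⊤ := by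
      rw [eq_top_iff, ← hcl, Subgroup.closure_le]
      rintro y (⟨a, rfl⟩ | hy | hy)
      · exact Subgroup.subset_closure (Or.inl ⟨a, rfl⟩)
      · rw [hy]; exact m1
      · rw [Set.mem_singleton_iff.1 hy]; exact m2
    have h2 : C.comap (of : _ →* CE (CE G S3) S4) = ⊤ := by
      apply hnn_eq_top
      · exact m3
      · intro g
        have : g ∈ (C.comap (of : _ →* CE (CE G S3) S4)).comap (of : _ →* CE G S3) := by
          rw [h1]; trivial
        exact this
    apply hnn_eq_top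
    · exact m4
    · intro g
      have : g ∈ C.comap (of : _ →* CE (CE G S3) S4) := by rw [h2]; trivial
      exact this
  · intro H _ φ' z' u' v' τ' hR
    obtain ⟨Φ2, f1, f2, f3⟩ := hup H φ' z' u' hR.zq hR.uk hR.uz
    obtain ⟨Φ3, g1, g2⟩ := ce_up S3 H Φ2 v' (by
      rw [hS3]
      apply comm_closure
      rintro y (hy | hy)
      · rw [hy, map_mul, f1, f3]
        exact hR.vx
      · rw [Set.mem_singleton_iff.1 hy]
        simp only [map_mul, map_inv, map_pow, f1, f2]
        exact hR.vt)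
    obtain ⟨Φ4, l1, l2⟩ := ce_up S4 H Φ3 τ' (by
      rw [hS4]
      apply comm_closure
      rintro _ (⟨y, hy, rfl⟩ | ⟨_, ⟨ρ, hρ, rfl⟩, rfl⟩)
      · simp only [map_mul, map_inv, g1, g2]
        have hc : ∀ y ∈ M, Commute (v'⁻¹ * τ' * v') (Φ2 y) := by
          rw [hM]
          apply comm_closure
          rintro y (⟨a, rfl⟩ | hy)
          · rw [f1]
            have := hR.τk a
            rw [Commute, SemiconjBy] at this ⊢
            calc v'⁻¹ * τ' * v' * φ' a = v'⁻¹ * (τ' * (v' * φ' a * v'⁻¹)) * v' := by group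
              _ = v'⁻¹ * ((v' * φ' a * v'⁻¹) * τ') * v' := by rw [this]
              _ = _ := by group
          · rw [Set.mem_singleton_iff.1 hy, f2]
            have := hR.τz
            rw [Commute, SemiconjBy] at this ⊢
            calc v'⁻¹ * τ' * v' * z' = v'⁻¹ * (τ' * (v' * z' * v'⁻¹)) * v' := by group
              _ = v'⁻¹ * ((v' * z' * v'⁻¹) * τ') * v' := by rw [this]
              _ = _ := by group
        have h3 := hc y hy
        rw [Commute, SemiconjBy] at h3 ⊢
        calc τ' * (v' * Φ2 y * v'⁻¹) = v' * ((v'⁻¹ * τ' * v') * Φ2 y) * v'⁻¹ := by group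
          _ = v' * (Φ2 y * (v'⁻¹ * τ' * v')) * v'⁻¹ := by rw [h3]
          _ = _ := by group
      · rw [g1, f1]
        exact hR.τr ρ hρ)
    refine ⟨Φ4, fun a => ?_, ?_, ?_, ?_, l2⟩
    · change Φ4 (of (of (k a))) = φ' a
      rw [l1, g1, f1]
    · rw [l1, g1, f2]
    · rw [l1, g1, f3]
    · rw [l1, g2]
  · intro n hn hnc g hg1 hg2
    set sn : K := s x tk n with hsn
    have hord : ∀ a : ℤ, z ^ a = 1 → a = 0 := by
      intro a ha
      by_contra hne
      apply hz1
      apply htf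
      rw [← orderOf_pos_iff, Nat.pos_iff_ne_zero]
      intro h0
      have h1 := orderOf_dvd_iff_zpow_eq_one.2 ha
      rw [h0] at h1
      simp at h1
      exact hne h1
    let y : CE G S3 := of ((k sn)⁻¹ * z * k sn)
    let α : Multiplicative ℤ →* CE G S3 := zpowersHom _ y
    have hα : ∀ a : Multiplicative ℤ, α a = of ((k sn)⁻¹ * z ^ a.toAdd * k sn) := by
      intro a
      change y ^ a.toAdd = _
      change (of ((k sn)⁻¹ * z * k sn)) ^ a.toAdd = _
      rw [← map_zpow]
      congr 1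
      have := conj_zpow (i := a.toAdd) (a := (k sn)⁻¹) (b := z)
      rw [inv_inv] at this
      exact this
    have hαi : Function.Injective α := by
      rw [injective_iff_map_eq_one]
      intro a ha
      rw [hα] at ha
      have h1 : (k sn)⁻¹ * z ^ a.toAdd * k sn = 1 := of_injective (MulEquiv.refl S3)
        (by rw [ha, map_one])
      have h2 : z ^ a.toAdd = 1 := by
        calc z ^ a.toAdd = k sn * ((k sn)⁻¹ * z ^ a.toAdd * k sn) * (k sn)⁻¹ := by group
          _ = 1 := by rw [h1]; group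
      have h3 := hord _ h2
      exact h3
    have hmem : ∀ a : Multiplicative ℤ, α a ∈ S4 ↔
        a ∈ Subgroup.zpowers (Multiplicative.ofAdd g) := by
      intro a
      have hz : a ∈ Subgroup.zpowers (Multiplicative.ofAdd g) ↔ g ∣ a.toAdd := by
        rw [Subgroup.mem_zpowers_iff]
        constructor
        · rintro ⟨j, rfl⟩
          exact ⟨j, by rw [toAdd_zpow, toAdd_ofAdd, smul_eq_mul, mul_comm]⟩
        · rintro ⟨j, hj⟩
          refine ⟨j, ?_⟩
          apply Multiplicative.toAdd.injective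
          rw [toAdd_zpow, toAdd_ofAdd, smul_eq_mul, hj, mul_comm]
      rw [hz]
      constructor
      · intro ha
        set L : Subgroup G := Subgroup.closure (((S3 ⊓ M : Subgroup G) : Set G) ∪
          (Rr.map k : Subgroup G)) with hL
        have hRM : Rr.map k ≤ M := by
          rintro _ ⟨ρ, hρ, rfl⟩
          exact hkM ρ
        have hLM : L ≤ M := by
          rw [hL, Subgroup.closure_le]
          rintro y (hy | hy)
          · exact hy.2
          · exact hRM hy
        have hSM : S3 ⊓ M ≤ L := fun y hy => Subgroup.subset_closure (Or.inl hy)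
        rw [hα] at ha
        have h1 : (k sn)⁻¹ * z ^ a.toAdd * k sn ∈ L := by
          apply Pool.Agent.X223.ISO.LemA.t G S3 M L hSM hLM
          have h2 : S4 ≤ Subgroup.closure ((fun g : G => (t * of g * t⁻¹ : CE G S3)) '' M ∪
              (fun g : G => (of g : CE G S3)) '' L) := by
            rw [hS4, hX4]
            apply Subgroup.closure_mono
            apply Set.union_subset_union_right
            apply Set.image_mono
            intro y hy
            exact Subgroup.subset_closure (Or.inr hy)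
          exact h2 ha
        obtain ⟨M', iM', φ, z', u', c1, c2, c3, c4⟩ := hGM K Q Rr π x tk hB
        obtain ⟨Θ, t1, t2, t3⟩ := hup M' φ z' u' c1 c2 c3
        apply c4 n hnc a.toAdd ?_ g hg1
        have e1 : ((φ sn)⁻¹ * z' * φ sn) ^ a.toAdd = Θ ((k sn)⁻¹ * z ^ a.toAdd * k sn) := by
          have := conj_zpow (i := a.toAdd) (a := (φ sn)⁻¹) (b := z')
          rw [inv_inv] at this
          rw [this]
          simp only [map_mul, map_inv, map_zpow, t1, t2]
        rw [e1]
        have h3 : Θ ((k sn)⁻¹ * z ^ a.toAdd * k sn) ∈ L.map Θ := ⟨_, h1, rfl⟩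
        rw [hL, MonoidHom.map_closure] at h3
        refine Subgroup.closure_mono ?_ h3
        rintro _ ⟨y, (⟨hy1, hy2⟩ | ⟨ρ, hρ, rfl⟩), rfl⟩
        · left
          constructor
          · have h4 : Θ y ∈ S3.map Θ := ⟨y, hy1, rfl⟩
            rw [hS3, MonoidHom.map_closure] at h4
            refine Subgroup.closure_mono ?_ h4
            rintro _ ⟨w, (hw | hw), rfl⟩
            · left
              rw [hw, map_mul, t1, t3]
            · right
              rw [Set.mem_singleton_iff.1 hw]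
              simp only [map_mul, map_inv, map_pow, t1, t2]
              rfl
          · have h4 : Θ y ∈ M.map Θ := ⟨y, hy2, rfl⟩
            rw [hM, MonoidHom.map_closure] at h4
            refine Subgroup.closure_mono ?_ h4
            rintro _ ⟨w, (⟨b, rfl⟩ | hw), rfl⟩
            · left
              exact ⟨b, (t1 b).symm⟩
            · right
              rw [Set.mem_singleton_iff.1 hw]
              exact t2
        · right
          exact ⟨ρ, hρ, (t1 ρ).symm⟩
      · rintro ⟨j, hj⟩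
        obtain ⟨m, ⟨ρ, hρ, hm⟩, hgm⟩ := hg2
        have hm0 : 0 ≤ m := hnc m ⟨ρ, hρ, hm⟩
        obtain ⟨m', rfl⟩ := Int.eq_ofNat_of_zero_le hm0
        rw [Int.toNat_natCast] at hgm
        have hy : y ^ g ∈ S4 := by
          have hzρ : z * k ρ = k ρ * z := (hzq ρ (hB.le hρ)).eq
          have e1 : (k sn)⁻¹ * z * k sn =
              k ρ * ((k (s x tk m'))⁻¹ * z * k (s x tk m')) * (k ρ)⁻¹ := by
            rw [hsn, hm]
            simp only [map_mul, map_inv, mul_inv_rev, inv_inv]
            calc k ρ * ((k (s x tk ↑m'))⁻¹ * (k ρ)⁻¹) * z * (k ρ * k (s x tk ↑m') * (k ρ)⁻¹) =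
                k ρ * ((k (s x tk ↑m'))⁻¹ * ((k ρ)⁻¹ * (z * k ρ)) * k (s x tk ↑m')) * (k ρ)⁻¹ := by
                  group
              _ = _ := by rw [hzρ, inv_mul_cancel_left]
          have e2 := zsm k z u x tk (hzq x hB.x_mem) (huk x) huz (huk tk) m'
          set h := (k x * u) ^ (-(m' : ℤ)) * ((k tk)⁻¹ * z ^ 2 * k tk) * (k x * u) ^ (m' : ℤ) with hh
          have hhS : h ∈ S3 := by
            have a1 : k x * u ∈ S3 := Subgroup.subset_closure (Or.inl rfl)
            have a2 : (k tk)⁻¹ * z ^ 2 * k tk ∈ S3 := Subgroup.subset_closure (Or.inr rfl)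
            exact S3.mul_mem (S3.mul_mem (S3.zpow_mem a1 _) a2) (S3.zpow_mem a1 _)
          have hhM : h ∈ M := by
            rw [← e2]
            exact M.pow_mem (M.mul_mem (M.mul_mem (M.inv_mem (hkM _)) hzM) (hkM _)) _
          have hh4 : (of h : CE G S3) ∈ S4 := by
            have b1 : (t * of h * t⁻¹ : CE G S3) ∈ S4 :=
              Subgroup.subset_closure (Or.inl ⟨h, hhM, rfl⟩)
            rw [(hvS h hhS).eq, mul_assoc, mul_inv_cancel, mul_one] at b1
            exact b1
          have hρ4 : (of (k ρ) : CE G S3) ∈ S4 :=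
            Subgroup.subset_closure (Or.inr ⟨k ρ, ⟨ρ, hρ, rfl⟩, rfl⟩)
          have e3 : y ^ g = of (k ρ) * of h * (of (k ρ))⁻¹ := by
            rw [hgm]
            have : (2 : ℤ) ^ (m' + 1) = ((2 ^ (m' + 1) : ℕ) : ℤ) := by push_cast; rfl
            rw [this, zpow_natCast]
            change (of ((k sn)⁻¹ * z * k sn)) ^ _ = _
            rw [← map_pow, e1, conj_pow, e2, map_mul, map_mul, map_inv]
          rw [e3]
          exact S4.mul_mem (S4.mul_mem hρ4 hh4) (S4.inv_mem hρ4)
        change y ^ a.toAdd ∈ S4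
        rw [hj, zpow_mul]
        exact S4.zpow_mem hy _
    obtain ⟨Φ, hΦ1, hΦ2, hΦ3⟩ := subhnn _ _ α (Subgroup.zpowers (Multiplicative.ofAdd g)) S4 hαi
      hmem
    refine ⟨(MulAut.conj (of (of (k sn)))).toMonoidHom.comp Φ,
      (MulAut.conj (of (of (k sn)))).injective.comp hΦ1, ?_, ?_⟩
    · rw [MonoidHom.comp_apply, hΦ2, hα]
      simp only [MulEquiv.toMonoidHom_eq_coe, MonoidHom.coe_coe, MulAut.conj_apply, toAdd_ofAdd,
        zpow_one]
      simp only [map_mul, map_inv]
      group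
    · rw [MonoidHom.comp_apply, hΦ3]
      rfl

end Pool.Agent.X192.ISO
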