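import Pool.Agent.Y817.ISO.Stm
import Pool.Agent.Helper694.CS.J_hnn_tf

set_option autoImplicit false

/-! # Britton's lemma: tools -/

namespace Pool.Agent.X192.ISO

open HNNExtension HNNExtension.NormalWord Pool.Agent.Y817.ISO

section

variable {G : Type*} [Group G] {A B : Subgroup G} (φ : A ≃* B)

lemma tpow_mul (u : ℤˣ) (a : toSubgroup A B u) :
    (t ^ (u : ℤ) * of (a : G) : HNNExtension G A B φ) =
      of (toSubgroupEquiv φ u a : G) * t ^ (u : ℤ) := by
  rcases Int.units_eq_one_or u with rfl | rfl
  · rw [Units.val_one, zpow_one]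
    exact t_mul_of (φ := φ) a
  · rw [Units.val_neg, Units.val_one, zpow_neg, zpow_one]
    exact inv_t_mul_of (φ := φ) a

/-- left multiplication of a reduced word with `t ^ u` -/
lemma step_t (S : Subgroup G)
    (hS : ∀ (u : ℤˣ) (a : toSubgroup A B u), (a : G) ∈ S → (toSubgroupEquiv φ u a : G) ∈ S)
    (u : ℤˣ) (w : ReducedWord G A B) (h1 : w.head ∈ S) (h2 : ∀ p ∈ w.toList, p.2 ∈ S) :
    ∃ w' : ReducedWord G A B, w'.prod φ = t ^ (u : ℤ) * w.prod φ ∧ w'.head ∈ S ∧
      ∀ p ∈ w'.toList, p.2 ∈ S := by
  obtain ⟨h, l, hl⟩ := w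
  dsimp only at h1 h2
  cases l with
  | nil =>
    refine ⟨⟨1, [(u, h)], List.isChain_singleton _⟩, ?_, S.one_mem, ?_⟩
    · simp [ReducedWord.prod]
    · intro p hp
      rw [List.mem_singleton] at hp
      rw [hp]
      exact h1
  | cons q l =>
    obtain ⟨v, k⟩ := q
    have hk : k ∈ S := h2 (v, k) List.mem_cons_self
    by_cases hc : h ∈ toSubgroup A B u ∧ u ≠ v
    · obtain ⟨hu, huv⟩ := hc
      have hv : v = -u := by
        rcases Int.units_eq_one_or u with rfl | rfl <;> rcases Int.units_eq_one_or v with rfl | rfl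
        · exact absurd rfl huv
        · rfl
        · rfl
        · exact absurd rfl huv
      refine ⟨⟨(toSubgroupEquiv φ u ⟨h, hu⟩ : G) * k, l, (List.isChain_cons.1 hl).2⟩, ?_, ?_, ?_⟩
      · have e1 := tpow_mul φ u ⟨h, hu⟩
        simp only [ReducedWord.prod, List.map_cons, List.prod_cons]
        rw [← mul_assoc (t ^ (u : ℤ)), e1, hv, map_mul]
        have e2 : (t ^ (u : ℤ) * t ^ ((-u : ℤˣ) : ℤ) : HNNExtension G A B φ) = 1 := by
          rw [Units.val_neg, ← zpow_add]
          simp
        simp only [mul_assoc]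
        rw [← mul_assoc (t ^ (u : ℤ)) (t ^ ((-u : ℤˣ) : ℤ)), e2, one_mul]
      · exact S.mul_mem (hS u ⟨h, hu⟩ h1) hk
      · exact fun p hp => h2 p (List.mem_cons_of_mem _ hp)
    · refine ⟨⟨1, (u, h) :: (v, k) :: l, ?_⟩, ?_, S.one_mem, ?_⟩
      · rw [List.isChain_cons_cons]
        refine ⟨fun hu => ?_, hl⟩
        by_contra huv
        exact hc ⟨hu, huv⟩
      · simp [ReducedWord.prod, mul_assoc]
      · intro p hp
        rcases List.mem_cons.1 hp with rfl | hp
        · exact h1
        · exact h2 p hp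

/-- elements of the subgroup generated by `S` and `t` are products of reduced words with
entries in `S` -/
theorem sub_word (S : Subgroup G)
    (hS : ∀ (u : ℤˣ) (a : toSubgroup A B u), (a : G) ∈ S → (toSubgroupEquiv φ u a : G) ∈ S)
    (x : HNNExtension G A B φ)
    (hx : x ∈ Subgroup.closure (of '' (S : Set G) ∪ {(t : HNNExtension G A B φ)})) :
    ∃ w : ReducedWord G A B, w.prod φ = x ∧ w.head ∈ S ∧ ∀ p ∈ w.toList, p.2 ∈ S := by
  induction hx using Subgroup.closure_induction_left with
  | one => exact ⟨ReducedWord.empty G A B, by simp [ReducedWord.prod], S.one_mem, by simp⟩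
  | mul_left g hg y hy ih =>
    obtain ⟨w, hw, h1, h2⟩ := ih
    rcases hg with ⟨s, hs, rfl⟩ | hg
    · exact ⟨⟨s * w.head, w.toList, w.chain⟩, by rw [← hw]; simp [ReducedWord.prod, mul_assoc],
        S.mul_mem hs h1, h2⟩
    · obtain ⟨w', e, h1', h2'⟩ := step_t φ S hS 1 w h1 h2
      refine ⟨w', ?_, h1', h2'⟩
      rw [e, hw, Set.mem_singleton_iff.1 hg]
      simp
  | inv_mul_cancel g hg y hy ih =>
    obtain ⟨w, hw, h1, h2⟩ := ih
    rcases hg with ⟨s, hs, rfl⟩ | hg
    · exact ⟨⟨s⁻¹ * w.head, w.toList, w.chain⟩, by rw [← hw]; simp [ReducedWord.prod, mul_assoc],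
        S.mul_mem (S.inv_mem hs) h1, h2⟩
    · obtain ⟨w', e, h1', h2'⟩ := step_t φ S hS (-1) w h1 h2
      refine ⟨w', ?_, h1', h2'⟩
      rw [e, hw, Set.mem_singleton_iff.1 hg]
      simp

/-- the subgroup generated by `S` and `t` meets the base group in `S` -/
theorem inter_base (S : Subgroup G)
    (hS : ∀ (u : ℤˣ) (a : toSubgroup A B u), (a : G) ∈ S → (toSubgroupEquiv φ u a : G) ∈ S)
    (g : G)
    (hx : of g ∈ Subgroup.closure (of '' (S : Set G) ∪ {(t : HNNExtension G A B φ)})) : g ∈ S := by
  obtain ⟨w, hw, h1, h2⟩ := sub_word φ S hS _ hx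
  have h3 := ReducedWord.toList_eq_nil_of_mem_of_range φ w (by rw [hw]; exact ⟨g, rfl⟩)
  have h4 : w.prod φ = of w.head := by simp [ReducedWord.prod, h3]
  rw [hw] at h4
  rw [of_injective φ h4]
  exact h1

end

/-- injectivity of a homomorphism from an HNN extension -/
theorem inj_crit {G : Type} [Group G] {A B : Subgroup G} (φ : A ≃* B)
    {G' : Type} [Group G'] {A' B' : Subgroup G'} (φ' : A' ≃* B')
    (Φ : HNNExtension G A B φ →* HNNExtension G' A' B' φ')
    (h0 : ∀ g : G, Φ (of g) = 1 → g = 1)
    (h1 : ∀ w : ReducedWord G A B, w.toList ≠ [] →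
      ∃ w' : ReducedWord G' A' B', w'.prod φ' = Φ (w.prod φ) ∧ w'.toList ≠ []) :
    Function.Injective Φ := by
  rw [injective_iff_map_eq_one]
  intro x hx
  obtain ⟨w, rfl⟩ := Pool.CS.hnn_word φ x
  by_cases hw : w.toList = []
  · have h4 : w.prod φ = of w.head := by simp [ReducedWord.prod, hw]
    rw [h4] at hx ⊢
    rw [h0 _ hx, map_one]
  · obtain ⟨w', e, hne⟩ := h1 w hw
    exfalso
    apply hne
    apply ReducedWord.toList_eq_nil_of_mem_of_range φ'
    rw [e, hx]
    exact Subgroup.one_mem _

lemma toSub_self {G : Type*} [Group G] (S : Subgroup G) (u : ℤˣ) : toSubgroup S S u = S := by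
  rcases Int.units_eq_one_or u with rfl | rfl <;> rfl

theorem subhnn : StmSubHNN := by
  intro A G _ _ α SA S hα hS
  have hc : ∀ a : SA, (t : CE G S) * (of.comp α) (a : A) =
      (of.comp α) ((MulEquiv.refl SA a : SA) : A) * t := by
    intro a
    exact t_mul_of (φ := MulEquiv.refl S) ⟨α a, (hS a).2 a.2⟩
  refine ⟨lift (of.comp α) t hc, ?_, ?_, lift_t _ _ _⟩
  · apply inj_crit
    · intro g hg
      rw [lift_of] at hg
      have h1 : of (α g) = (of 1 : CE G S) := by rw [map_one]; exact hg
      have h2 := of_injective _ h1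
      exact hα (by rw [h2, map_one])
    · intro w hw
      refine ⟨⟨α w.head, w.toList.map (fun p => (p.1, α p.2)), ?_⟩, ?_, by simpa using hw⟩
      · rw [List.isChain_map]
        refine w.chain.imp ?_
        intro p q h hp
        apply h
        rw [toSub_self] at hp ⊢
        exact (hS _).1 hp
      · simp only [ReducedWord.prod, map_mul, lift_of, MonoidHom.comp_apply, map_list_prod,
          List.map_map]
        congr 3
        funext p
        simp
  · intro a
    exact lift_of _ _ _ _

lemma square_list {G : Type*} [Group G] (S : Subgroup G) :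
    ∀ l : List (ℤˣ × G), l.IsChain (fun a b => a.2 ∈ toSubgroup S S a.1 → a.1 = b.1) →
    (l.flatMap fun p => [(p.1, (1 : G)), (p.1, p.2)]).IsChain
      (fun a b => a.2 ∈ toSubgroup S S a.1 → a.1 = b.1) := by
  intro l
  induction l with
  | nil => intro _; exact List.isChain_nil
  | cons p l ih =>
    intro h
    cases l with
    | nil =>
      simp only [List.flatMap_cons, List.flatMap_nil, List.append_nil]
      rw [List.isChain_cons_cons]
      exact ⟨fun _ => rfl, List.isChain_singleton _⟩
    | cons q l =>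
      rw [List.isChain_cons_cons] at h
      have h3 := ih h.2
      simp only [List.flatMap_cons, List.cons_append, List.nil_append] at h3 ⊢
      rw [List.isChain_cons_cons, List.isChain_cons_cons]
      exact ⟨fun _ => rfl, h.1, h3⟩

theorem square : StmSquare := by
  intro K _ Q
  have hc0 : ∀ a : Q, (t : CE K Q) * of (a : K) = of (a : K) * t := fun a =>
    t_mul_of (φ := MulEquiv.refl Q) a
  have hc : ∀ a : Q, (t : CE K Q) ^ 2 * of (a : K) =
      of ((MulEquiv.refl Q a : Q) : K) * t ^ 2 := by
    intro a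
    exact (Commute.pow_left (hc0 a) 2)
  refine ⟨lift of (t ^ 2) hc, ?_, fun k => lift_of _ _ _ _, lift_t _ _ _⟩
  apply inj_crit
  · intro g hg
    rw [lift_of] at hg
    have h1 : of g = (of 1 : CE K Q) := by rw [map_one]; exact hg
    exact of_injective _ h1
  · intro w hw
    refine ⟨⟨w.head, w.toList.flatMap fun p => [(p.1, (1 : K)), (p.1, p.2)],
      square_list Q _ w.chain⟩, ?_, ?_⟩
    · simp only [ReducedWord.prod, map_mul, lift_of, map_list_prod, List.map_map]
      congr 1
      induction w.toList with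
      | nil => rfl
      | cons p l ih =>
        rw [List.flatMap_cons, List.map_append, List.prod_append, ih, List.map_cons, List.prod_cons]
        congr 1
        simp only [List.map_cons, List.map_nil, List.prod_cons, List.prod_nil, map_one, mul_one,
          Function.comp_apply, map_mul, map_zpow, lift_t, lift_of]
        rw [← mul_assoc, ← zpow_natCast, ← zpow_mul, ← zpow_add]
        congr 2
        ring
    · intro h
      apply hw
      change (w.toList.flatMap fun p => [(p.1, (1 : K)), (p.1, p.2)]) = [] at h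
      cases hl : w.toList with
      | nil => rfl
      | cons p l =>
        rw [hl] at h
        simp at h

end Pool.Agent.X192.ISO
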