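import Pool.Agent.X192.ISO.MHNN
import Pool.Agent.X223.ISO.LemA

set_option autoImplicit false

/-! # The tower: lower part -/

namespace Pool.Agent.X192.ISO

open HNNExtension Pool.Agent.Y817.ISO

lemma ce_comm {G : Type} [Group G] (S : Subgroup G) (s : G) (hs : s ∈ S) :
    Commute (t : CE G S) (of s) :=
  t_mul_of (φ := MulEquiv.refl S) ⟨s, hs⟩

lemma ce_up {G : Type} [Group G] (S : Subgroup G) (H : Type) [Group H] (φ : G →* H) (t' : H)
    (h : ∀ s ∈ S, Commute t' (φ s)) :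
    ∃ Φ : CE G S →* H, (∀ g, Φ (of g) = φ g) ∧ Φ t = t' :=
  ⟨lift φ t' (fun a => h a a.2), fun _ => lift_of _ _ _ _, lift_t _ _ _⟩

lemma hnn_eq_top {G : Type*} [Group G] {A B : Subgroup G} {φ : A ≃* B}
    (C : Subgroup (HNNExtension G A B φ)) (h1 : t ∈ C) (h2 : ∀ g, of g ∈ C) : C = ⊤ := by
  rw [eq_top_iff]
  rintro x -
  induction x using HNNExtension.induction_on with
  | of k => exact h2 k
  | t => exact h1
  | mul x y hx hy => exact C.mul_mem hx hy
  | inv x hx => exact C.inv_mem hx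

lemma comm_closure {G H : Type*} [Group G] [Group H] (φ : G →* H) (X : Set G) (t : H)
    (h : ∀ s ∈ X, Commute t (φ s)) : ∀ s ∈ Subgroup.closure X, Commute t (φ s) := by
  intro s hs
  induction hs using Subgroup.closure_induction with
  | mem y hy => exact h y hy
  | one => rw [map_one]; exact Commute.one_right t
  | mul a b _ _ ha hb => rw [map_mul]; exact ha.mul_right hb
  | inv a _ ha => rw [map_inv]; exact ha.inv_right

/-- ascending HNN extensions -/
theorem asc (G1 : Type) [Group G1] (ψ : G1 →* G1) (hψ : Function.Injective ψ) :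
    ∃ (G2 : Type) (_ : Group G2) (o : G1 →* G2) (u : G2), Function.Injective o ∧
      (∀ a, u⁻¹ * o a * u = o (ψ a)) ∧ (TF G1 → TF G2) ∧
      Subgroup.closure (Set.range o ∪ {u}) = ⊤ ∧
      ∀ (H : Type) [Group H] (φ : G1 →* H) (u' : H), (∀ a, u'⁻¹ * φ a * u' = φ (ψ a)) →
        ∃ Φ : G2 →* H, (∀ x, Φ (o x) = φ x) ∧ Φ u = u' := by
  obtain ⟨K, iK, o, r, h1, h2, h3, h4, h5⟩ := mhnn G1 Unit (fun _ => G1)
    (fun _ => MonoidHom.id G1) (fun _ => ψ) (fun _ _ _ h => h) (fun _ => hψ)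
  refine ⟨K, iK, o, (r ())⁻¹, h1, ?_, h3, ?_, ?_⟩
  · intro a
    have h := h2 () a
    rw [inv_inv]
    change r () * o a = o (ψ a) * r () at h
    rw [h, mul_assoc, mul_inv_cancel, mul_one]
  · rw [eq_top_iff, ← h4, Subgroup.closure_le]
    rintro y (⟨a, rfl⟩ | ⟨i, rfl⟩)
    · exact Subgroup.subset_closure (Or.inl ⟨a, rfl⟩)
    · have : (r ())⁻¹ ∈ Subgroup.closure (Set.range o ∪ {(r ())⁻¹}) :=
        Subgroup.subset_closure (Or.inr rfl)
      have h6 := Subgroup.inv_mem _ this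
      rw [inv_inv] at h6
      exact h6
  · intro H _ φ u' hu
    obtain ⟨Φ, hΦ1, hΦ2⟩ := h5 H φ (fun _ => u'⁻¹) (by
      intro _ a
      change u'⁻¹ * φ a = φ (ψ a) * u'⁻¹
      rw [← hu a]
      group)
    exact ⟨Φ, hΦ1, by rw [map_inv, hΦ2, inv_inv]⟩

/-- the two lower storeys -/
theorem low (K : Type) [Group K] (Q : Subgroup K) (htf : TF K) :
    ∃ (G : Type) (_ : Group G) (k : K →* G) (z u : G), TF G ∧ Function.Injective k ∧ z ≠ 1 ∧
      (∀ q ∈ Q, Commute z (k q)) ∧ (∀ a, Commute u (k a)) ∧ u⁻¹ * z * u = z ^ 2 ∧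
      Subgroup.closure (Set.range k ∪ {z, u}) = ⊤ ∧
      ∀ (H : Type) [Group H] (k' : K →* H) (z' u' : H), (∀ q ∈ Q, Commute z' (k' q)) →
        (∀ a, Commute u' (k' a)) → u'⁻¹ * z' * u' = z' ^ 2 →
        ∃ Φ : G →* H, (∀ a, Φ (k a) = k' a) ∧ Φ z = z' ∧ Φ u = u' := by
  obtain ⟨ψ, hψ, hψ1, hψ2⟩ := square K Q
  obtain ⟨G2, i2, o, u, ho, hu, htf2, hcl, hup⟩ := asc (CE K Q) ψ hψ
  refine ⟨G2, i2, o.comp of, o t, u, htf2 (tf_hnn _ htf), ho.comp (of_injective _), ?_, ?_, ?_, ?_,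
    ?_, ?_⟩
  · intro h
    have h1 : (t : CE K Q) = 1 := ho (by rw [h, map_one])
    obtain ⟨Φ, -, hΦ⟩ := ce_up Q (Multiplicative ℤ) 1 (Multiplicative.ofAdd 1)
      (fun _ _ => Commute.one_right _)
    rw [h1, map_one] at hΦ
    have h2 := congrArg Multiplicative.toAdd hΦ
    simp at h2
  · intro q hq
    exact (ce_comm Q q hq).map o
  · intro a
    have h := hu (of a)
    rw [hψ1] at h
    change u * o (of a) = o (of a) * u
    calc u * o (of a) = u * (u⁻¹ * o (of a) * u) := by rw [h]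
      _ = o (of a) * u := by group
  · rw [hu, hψ2, map_pow]
  · rw [eq_top_iff, ← hcl, Subgroup.closure_le]
    set C := Subgroup.closure (Set.range (o.comp (of : K →* CE K Q)) ∪ {o t, u}) with hC
    have h1 : C.comap o = ⊤ := by
      apply hnn_eq_top
      · exact Subgroup.subset_closure (Or.inr (Or.inl rfl))
      · intro g
        exact Subgroup.subset_closure (Or.inl ⟨g, rfl⟩)
    rintro y (⟨a, rfl⟩ | hy)
    · have h2 : a ∈ C.comap o := by rw [h1]; trivial
      exact h2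
    · rw [Set.mem_singleton_iff.1 hy]
      exact Subgroup.subset_closure (Or.inr (Or.inr rfl))
  · intro H _ k' z' u' h1 h2 h3
    obtain ⟨Φ1, hΦ1, hΦ1t⟩ := ce_up Q H k' z' h1
    obtain ⟨Φ, hΦ, hΦu⟩ := hup H Φ1 u' (by
      have : ((MulAut.conj u'⁻¹).toMonoidHom.comp Φ1) = Φ1.comp ψ := by
        apply HNNExtension.hom_ext
        · ext g
          simp only [MonoidHom.comp_apply, MulEquiv.toMonoidHom_eq_coe, MonoidHom.coe_coe,
            MulAut.conj_apply, inv_inv, hΦ1, hψ1]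
          have := h2 g
          rw [mul_assoc, ← this.eq]
          group
        · simp only [MonoidHom.comp_apply, MulEquiv.toMonoidHom_eq_coe, MonoidHom.coe_coe,
            MulAut.conj_apply, inv_inv, hΦ1t, hψ2, map_pow]
          exact h3
      intro a
      have h4 := DFunLike.congr_fun this a
      simpa using h4)
    refine ⟨Φ, fun a => ?_, ?_, hΦu⟩
    · rw [MonoidHom.comp_apply, hΦ, hΦ1]
    · rw [hΦ, hΦ1t]

end Pool.Agent.X192.ISO
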