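import Pool.Agent.X192.ISO.Brit

set_option autoImplicit false

/-! # Multiple HNN extensions -/

namespace Pool.Agent.X192.ISO

open HNNExtension HNNExtension.NormalWord Pool.Agent.Y817.ISO

lemma hS_of_iff {G : Type*} [Group G] {A B : Subgroup G} (φ : A ≃* B) (S : Subgroup G)
    (h : ∀ a : A, (a : G) ∈ S ↔ ((φ a : B) : G) ∈ S) (u : ℤˣ) (a : toSubgroup A B u)
    (ha : (a : G) ∈ S) : (toSubgroupEquiv φ u a : G) ∈ S := by
  rcases Int.units_eq_one_or u with rfl | rfl
  · exact (h a).1 ha
  · have h1 := h (φ.symm a)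
    have h2 : ((φ (φ.symm a) : B) : G) = a := congrArg Subtype.val (φ.apply_symm_apply a)
    rw [h2] at h1
    exact h1.2 ha

/-- the conclusion of MHNN with the additional statement on subgroups -/
def Concl (G : Type) [Group G] (ι : Type) : Prop :=
  ∀ (Q : ι → Type) [∀ i, Group (Q i)] (f g : ∀ i, Q i →* G), (∀ i, Function.Injective (f i)) →
  (∀ i, Function.Injective (g i)) →
  ∃ (K : Type) (_ : Group K) (of : G →* K) (r : ι → K), Function.Injective of ∧
    (∀ i q, r i * of (f i q) = of (g i q) * r i) ∧ (TF G → TF K) ∧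
    Subgroup.closure (Set.range of ∪ Set.range r) = ⊤ ∧
    (∀ (H : Type) [Group H] (φ : G →* H) (s : ι → H),
      (∀ i q, s i * φ (f i q) = φ (g i q) * s i) →
      ∃ Φ : K →* H, (∀ x, Φ (of x) = φ x) ∧ ∀ i, Φ (r i) = s i) ∧
    ∀ S : Subgroup G, (∀ i q, f i q ∈ S ↔ g i q ∈ S) → ∀ x : G,
      of x ∈ Subgroup.closure (of '' (S : Set G) ∪ Set.range r) → x ∈ S

theorem tf_hnn {K : Type} [Group K] {A B : Subgroup K} (φ : A ≃* B) (h : TF K) :
    TF (HNNExtension K A B φ) := by
  intro x hx
  by_contra hne
  exact Pool.CS.hnn_tf φ (fun k hk hk' => hk (h k hk')) x hne hx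

theorem concl (G : Type) [Group G] (ι : Type) [Finite ι] : Concl G ι := by
  induction ι using Finite.induction_empty_option with
  | of_equiv e h =>
    intro Q _ f g hf hg
    obtain ⟨K, iK, of, r, h1, h2, h3, h4, h5, h6⟩ := h (fun a => Q (e a)) (fun a => f (e a))
      (fun a => g (e a)) (fun a => hf _) (fun a => hg _)
    have hr : Set.range (fun b => r (e.symm b)) = Set.range r := by
      ext x
      constructor
      · rintro ⟨b, rfl⟩
        exact ⟨_, rfl⟩
      · rintro ⟨a, rfl⟩
        exact ⟨e a, by simp⟩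
    refine ⟨K, iK, of, fun b => r (e.symm b), h1, ?_, h3, ?_, ?_, ?_⟩
    · intro b q
      obtain ⟨a, rfl⟩ := e.surjective b
      change r (e.symm (e a)) * of (f (e a) q) = of (g (e a) q) * r (e.symm (e a))
      rw [e.symm_apply_apply]
      exact h2 a q
    · rw [hr]
      exact h4
    · intro H _ φ s hs
      obtain ⟨Φ, hΦ1, hΦ2⟩ := h5 H φ (fun a => s (e a)) (fun a q => hs (e a) q)
      refine ⟨Φ, hΦ1, fun b => ?_⟩
      obtain ⟨a, rfl⟩ := e.surjective b
      change Φ (r (e.symm (e a))) = s (e a)
      rw [e.symm_apply_apply]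
      exact hΦ2 a
    · intro S hS x hx
      rw [hr] at hx
      exact h6 S (fun a q => hS (e a) q) x hx
  | h_empty =>
    intro Q _ f g hf hg
    refine ⟨G, inferInstance, MonoidHom.id G, fun i => i.elim, fun _ _ h => h,
      fun i => i.elim, id, ?_, ?_, ?_⟩
    · rw [eq_top_iff]
      exact fun x _ => Subgroup.subset_closure (Or.inl ⟨x, rfl⟩)
    · intro H _ φ s _
      exact ⟨φ, fun _ => rfl, fun i => i.elim⟩
    · intro S _ x hx
      have h1 : Subgroup.closure ((MonoidHom.id G) '' (S : Set G) ∪
          Set.range (fun i : PEmpty => (i.elim : G))) ≤ S := by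
        rw [Subgroup.closure_le]
        rintro y (⟨z, hz, rfl⟩ | ⟨i, _⟩)
        · exact hz
        · exact i.elim
      exact h1 hx
  | h_option h =>
    intro Q _ f g hf hg
    obtain ⟨K, iK, of1, r, h1, h2, h3, h4, h5, h6⟩ := h (fun a => Q (some a)) (fun a => f (some a))
      (fun a => g (some a)) (fun a => hf _) (fun a => hg _)
    have hfi : Function.Injective (of1.comp (f none)) := h1.comp (hf none)
    have hgi : Function.Injective (of1.comp (g none)) := h1.comp (hg none)
    let φ : (of1.comp (f none)).range ≃* (of1.comp (g none)).range :=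
      (MonoidHom.ofInjective hfi).symm.trans (MonoidHom.ofInjective hgi)
    have hφ : ∀ q, φ ⟨of1 (f none q), ⟨q, rfl⟩⟩ = ⟨of1 (g none q), ⟨q, rfl⟩⟩ := by
      intro q
      have e1 : (⟨of1 (f none q), ⟨q, rfl⟩⟩ : (of1.comp (f none)).range) =
          MonoidHom.ofInjective hfi q := rfl
      rw [e1]
      change MonoidHom.ofInjective hgi ((MonoidHom.ofInjective hfi).symm
        (MonoidHom.ofInjective hfi q)) = _
      rw [MulEquiv.symm_apply_apply]
      rfl
    let R : Option _ → HNNExtension K _ _ φ := fun i => match i with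
      | none => t
      | some a => of (r a)
    refine ⟨HNNExtension K _ _ φ, inferInstance, of.comp of1, R, ?_, ?_, ?_, ?_, ?_, ?_⟩
    · exact (of_injective φ).comp h1
    · intro i q
      cases i with
      | none =>
        have e1 := t_mul_of (φ := φ) ⟨of1 (f none q), ⟨q, rfl⟩⟩
        rw [hφ] at e1
        exact e1
      | some a =>
        change of (r a) * of (of1 (f (some a) q)) = of (of1 (g (some a) q)) * of (r a)
        rw [← map_mul, ← map_mul, h2 a q]
    · exact fun hG => tf_hnn φ (h3 hG)
    · rw [eq_top_iff]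
      rintro x -
      have hofK : ∀ k : K, (of k : HNNExtension K _ _ φ) ∈
          Subgroup.closure (Set.range (of.comp of1) ∪ Set.range R) := by
        intro k
        have hk : k ∈ Subgroup.closure (Set.range of1 ∪ Set.range r) := by rw [h4]; trivial
        have h7 : Subgroup.closure (Set.range of1 ∪ Set.range r) ≤
            (Subgroup.closure (Set.range (of.comp of1) ∪ Set.range R)).comap of := by
          rw [Subgroup.closure_le]
          rintro y (⟨z, rfl⟩ | ⟨a, rfl⟩)
          · exact Subgroup.subset_closure (Or.inl ⟨z, rfl⟩)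
          · exact Subgroup.subset_closure (Or.inr ⟨some a, rfl⟩)
        exact h7 hk
      induction x using HNNExtension.induction_on with
      | of k => exact hofK k
      | t => exact Subgroup.subset_closure (Or.inr ⟨none, rfl⟩)
      | mul x y hx hy => exact Subgroup.mul_mem _ hx hy
      | inv x hx => exact Subgroup.inv_mem _ hx
    · intro H _ ψ s hs
      obtain ⟨Φ, hΦ1, hΦ2⟩ := h5 H ψ (fun a => s (some a)) (fun a q => hs (some a) q)
      have hc : ∀ a : (of1.comp (f none)).range, s none * Φ (a : K) = Φ (φ a : K) * s none := by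
        rintro ⟨_, ⟨q, rfl⟩⟩
        have e1 : φ ⟨(of1.comp (f none)) q, ⟨q, rfl⟩⟩ = ⟨of1 (g none q), ⟨q, rfl⟩⟩ := hφ q
        rw [e1]
        change s none * Φ (of1 (f none q)) = Φ (of1 (g none q)) * s none
        rw [hΦ1, hΦ1]
        exact hs none q
      refine ⟨lift Φ (s none) hc, ?_, ?_⟩
      · intro x
        change lift Φ (s none) hc (of (of1 x)) = ψ x
        rw [lift_of, hΦ1]
      · intro i
        cases i with
        | none => exact lift_t _ _ _
        | some a =>
          change lift Φ (s none) hc (of (r a)) = s (some a)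
          rw [lift_of, hΦ2]
    · intro S hS x hx
      set S1 : Subgroup K := Subgroup.closure (of1 '' (S : Set G) ∪ Set.range r) with hS1
      have h6' := h6 S (fun a q => hS (some a) q)
      have hin : ∀ y ∈ S, of1 y ∈ S1 := fun y hy => Subgroup.subset_closure (Or.inl ⟨y, hy, rfl⟩)
      have hcl : Subgroup.closure ((of.comp of1) '' (S : Set G) ∪ Set.range R) ≤
          Subgroup.closure (of '' (S1 : Set K) ∪ {(t : HNNExtension K _ _ φ)}) := by
        rw [Subgroup.closure_le]
        rintro y (⟨z, hz, rfl⟩ | ⟨i, rfl⟩)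
        · exact Subgroup.subset_closure (Or.inl ⟨of1 z, hin z hz, rfl⟩)
        · cases i with
          | none => exact Subgroup.subset_closure (Or.inr (Set.mem_singleton _))
          | some a => exact Subgroup.subset_closure (Or.inl ⟨r a, Subgroup.subset_closure
              (Or.inr ⟨a, rfl⟩), rfl⟩)
      apply h6'
      apply inter_base φ S1 (hS_of_iff φ S1 ?_) (of1 x) (hcl hx)
      rintro ⟨_, ⟨q, rfl⟩⟩
      have e1 : φ ⟨(of1.comp (f none)) q, ⟨q, rfl⟩⟩ = ⟨of1 (g none q), ⟨q, rfl⟩⟩ := hφ q
      rw [e1]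
      change of1 (f none q) ∈ S1 ↔ of1 (g none q) ∈ S1
      constructor
      · intro h7
        exact hin _ ((hS none q).1 (h6' _ h7))
      · intro h7
        exact hin _ ((hS none q).2 (h6' _ h7))

theorem mhnn : StmMHNN := by
  intro G _ ι _ Q _ f g hf hg
  obtain ⟨K, iK, of, r, h1, h2, h3, h4, h5, _⟩ := concl G ι Q f g hf hg
  exact ⟨K, iK, of, r, h1, h2, h3, h4, h5⟩

end Pool.Agent.X192.ISO
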