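import Pool.Agent.Y817.ISO.Stm

set_option autoImplicit false

/-! # The group `U` of the relation -/

namespace Pool.Agent.X192.ISO

open Pool.Agent.Y817.ISO

lemma lift_W {A H : Type} [Group H] (h : A → H) (c x t τ : A) (n : ℕ) :
    FreeGroup.lift h (FreeGroup.mk (W c x t τ n)) =
      h c * (s (h x) (h t) n * h τ * (s (h x) (h t) n)⁻¹) * (h c)⁻¹ *
        (s (h x) (h t) n * h τ * (s (h x) (h t) n)⁻¹)⁻¹ := by
  rw [FreeGroup.lift_mk]
  simp only [W, List.map_cons, List.map_append, List.map_replicate, List.prod_cons,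
    List.prod_append, List.prod_replicate, cond_true, cond_false, s, zpow_neg, zpow_natCast,
    inv_pow]
  generalize h x ^ n = y
  group

lemma s_eq {J K : Type} [DecidableEq J] [Group K] {P : Type} (X : Multiplicative (J → ℤ) →* K)
    (t : P → K) (B : P) (e : J) (n : ℤ) :
    s (X (Multiplicative.ofAdd (Pi.single e 1))) (t B) n = T X t B (Pi.single e n) := by
  have h : X (Multiplicative.ofAdd (Pi.single e 1)) ^ n =
      X (Multiplicative.ofAdd (Pi.single e n)) := by
    rw [← map_zpow, ← ofAdd_zsmul]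
    congr 2
    ext j
    by_cases hj : j = e
    · subst hj; simp
    · simp [Pi.single_eq_of_ne hj]
  unfold s T
  rw [zpow_neg, h]

lemma map_s {K U : Type} [Group K] [Group U] (φ : K →* U) (x t : K) (n : ℤ) :
    φ (s x t n) = s (φ x) (φ t) n := by
  simp [s]

theorem bot {P ι J : Type} [DecidableEq J] (D : Rules P ι J) (B : P) (e : J) (K : Type) [Group K]
    (X : Multiplicative (J → ℤ) →* K) (t : P → K) (r : ι → K) (hR : Rel D K X t r) (htf : TF K)
    (hcl : Subgroup.closure (Set.range X ∪ Set.range t ∪ Set.range r) = ⊤)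
    (hup : ∀ (H : Type) [Group H] (X' : Multiplicative (J → ℤ) →* H) (t' : P → H) (r' : ι → H),
      Rel D H X' t' r' → ∃ Φ : K →* H, (∀ v, Φ (X v) = X' v) ∧ (∀ p, Φ (t p) = t' p) ∧
        ∀ i, Φ (r i) = r' i) :
    ∃ π : K →* K, Bot K (Subgroup.closure (Set.range X ∪ Set.range r))
      (Subgroup.closure (Set.range r)) π (X (Multiplicative.ofAdd (Pi.single e 1))) (t B) := by
  have h1 : ∀ p v, T X (fun _ : P => (1 : K)) p v = 1 := by
    intro p v
    simp [T]
  obtain ⟨π, p1, p2, p3⟩ := hup K X (fun _ => 1) r ⟨hR.shift, fun i => by rw [h1, h1]; simp⟩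
  refine ⟨π, htf, ?_, ?_, ?_, ?_, p2 B⟩
  · intro k
    have : (⊤ : Subgroup K) ≤ (Subgroup.closure (Set.range X ∪ Set.range r)).comap π := by
      rw [← hcl, Subgroup.closure_le]
      rintro y ((⟨v, rfl⟩ | ⟨p, rfl⟩) | ⟨i, rfl⟩)
      · rw [SetLike.mem_coe, Subgroup.mem_comap, p1]
        exact Subgroup.subset_closure (Or.inl ⟨v, rfl⟩)
      · rw [SetLike.mem_coe, Subgroup.mem_comap, p2]
        exact Subgroup.one_mem _
      · rw [SetLike.mem_coe, Subgroup.mem_comap, p3]
        exact Subgroup.subset_closure (Or.inr ⟨i, rfl⟩)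
    exact this (Subgroup.mem_top k)
  · intro q hq
    have : Subgroup.closure (Set.range X ∪ Set.range r) ≤ MonoidHom.eqLocus π (MonoidHom.id K) := by
      rw [Subgroup.closure_le]
      rintro y (⟨v, rfl⟩ | ⟨i, rfl⟩)
      · exact p1 v
      · exact p3 i
    exact this hq
  · exact Subgroup.closure_mono Set.subset_union_right
  · exact Subgroup.subset_closure (Or.inl ⟨_, rfl⟩)

lemma comm_closure' {G H : Type*} [Group G] [Group H] (φ : G →* H) (X : Set G) (t : H)
    (h : ∀ s ∈ X, Commute t (φ s)) : ∀ s ∈ Subgroup.closure X, Commute t (φ s) := by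
  intro s hs
  induction hs using Subgroup.closure_induction with
  | mem y hy => exact h y hy
  | one => rw [map_one]; exact Commute.one_right t
  | mul a b _ _ ha hb => rw [map_mul]; exact ha.mul_right hb
  | inv a _ ha => rw [map_inv]; exact ha.inv_right

/-- what is needed of the group `U` -/
structure UData {P ι J : Type} [DecidableEq J] (R : ℕ → ℕ → Prop) (D : Rules P ι J) (B : P) (e : J)
    (U : Type) [Group U] (X : Multiplicative (J → ℤ) →* U) (t : P → U) (r : ι → U)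
    (z u v τ : U) : Prop where
  tf : TF U
  rel : GenRel D B e U X t r z u v τ 1
  cl : Subgroup.closure (Set.range X ∪ Set.range t ∪ Set.range r ∪ {z, u, v, τ}) = ⊤
  up : ∀ (H : Type) [Group H] (X' : Multiplicative (J → ℤ) →* H) (t' : P → H) (r' : ι → H)
    (z' u' v' τ' : H), GenRel D B e H X' t' r' z' u' v' τ' 1 →
    ∃ Φ : U →* H, (∀ w, Φ (X w) = X' w) ∧ (∀ p, Φ (t p) = t' p) ∧ (∀ i, Φ (r i) = r' i) ∧
      Φ z = z' ∧ Φ u = u' ∧ Φ v = v' ∧ Φ τ = τ'
  conn : ∀ n m : ℕ, R n m → ∃ ρ : U, Commute z ρ ∧ Commute τ ρ ∧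
    s (X (Multiplicative.ofAdd (Pi.single e 1))) (t B) n =
      ρ * s (X (Multiplicative.ofAdd (Pi.single e 1))) (t B) m * ρ⁻¹
  beta : ∀ n a : ℕ, R n a → (∀ b, R n b → a ≤ b) → ∃ β : Bg (2 ^ (a + 1)) →* U,
    Function.Injective β ∧ β (HNNExtension.of (Multiplicative.ofAdd 1)) = z ∧
      β HNNExtension.t = s (X (Multiplicative.ofAdd (Pi.single e 1))) (t B) n * τ *
        (s (X (Multiplicative.ofAdd (Pi.single e 1))) (t B) n)⁻¹

theorem stageU (hK : StmK) (hT : StmTower) (R : ℕ → ℕ → Prop) (hR : Equivalence R)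
    {P ι J : Type} [Finite ι] [Finite J] [DecidableEq J] (D : Rules P ι J) (B : P) (e : J)
    (hc : ∀ k k' : ℤ, Relation.EqvGen (Step D) (B, Pi.single e k) (B, Pi.single e k') ↔
        (k = k' ∨ ∃ a b : ℕ, k = a ∧ k' = b ∧ R a b)) :
    ∃ (U : Type) (_ : Group U) (X : Multiplicative (J → ℤ) →* U) (t : P → U) (r : ι → U)
      (z u v τ : U), UData R D B e U X t r z u v τ := by
  obtain ⟨K, iK, X, t, r, k1, k2, k3, k4, k5⟩ := hK P ι J D
  obtain ⟨π, hB⟩ := bot D B e K X t r k1 k2 k3 k4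
  set x := X (Multiplicative.ofAdd (Pi.single e 1)) with hx
  set Rr := Subgroup.closure (Set.range r) with hRr
  set Q := Subgroup.closure (Set.range X ∪ Set.range r) with hQ
  have hconn : ∀ n m : ℤ, Conn Rr x (t B) n m ↔ (n = m ∨ ∃ a b : ℕ, n = a ∧ m = b ∧ R a b) := by
    intro n m
    rw [← hc n m, ← k5 B B (Pi.single e n) (Pi.single e m)]
    unfold Conn
    rw [hx, s_eq, s_eq]
  obtain ⟨U, iU, φ, z, u, v, τ, t1, t2, t3, t4, t5⟩ := hT K Q Rr π x (t B) hB
  refine ⟨U, iU, φ.comp X, fun p => φ (t p), fun i => φ (r i), z, u, v, τ, t1, ?_, ?_, ?_, ?_, ?_⟩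
  · have hT' : ∀ p w, T (φ.comp X) (fun p => φ (t p)) p w = φ (T X t p w) := by
      intro p w
      simp [T]
    refine ⟨⟨?_, ?_⟩, ?_, ?_, ?_, ?_, ?_, t2.uz, t2.vx, t2.vt, ?_, ?_, ?_, t2.τz, ?_, ?_, ?_⟩
    · intro i w
      rw [MonoidHom.comp_apply, MonoidHom.comp_apply, ← map_mul, ← map_mul, k1.shift]
    · intro i
      rw [hT', hT', ← map_mul, ← map_mul, k1.rule]
    · exact fun w => t2.zq _ (Subgroup.subset_closure (Or.inl ⟨w, rfl⟩))
    · exact fun i => t2.zq _ (Subgroup.subset_closure (Or.inr ⟨i, rfl⟩))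
    · exact fun w => t2.uk _
    · exact fun p => t2.uk _
    · exact fun i => t2.uk _
    · exact fun w => t2.τk _
    · exact fun p => t2.τk _
    · exact fun i => t2.τk _
    · exact fun i => t2.τr _ (Subgroup.subset_closure ⟨i, rfl⟩)
    · exact one_pow 5
    · exact Commute.one_left _
  · rw [eq_top_iff, ← t3, Subgroup.closure_le]
    set C := Subgroup.closure (Set.range (φ.comp X) ∪ Set.range (fun p => φ (t p)) ∪
      Set.range (fun i => φ (r i)) ∪ {z, u, v, τ}) with hC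
    have h1 : (⊤ : Subgroup K) ≤ C.comap φ := by
      rw [← k3, Subgroup.closure_le]
      rintro y ((⟨w, rfl⟩ | ⟨p, rfl⟩) | ⟨i, rfl⟩)
      · exact Subgroup.subset_closure (Or.inl (Or.inl (Or.inl ⟨w, rfl⟩)))
      · exact Subgroup.subset_closure (Or.inl (Or.inl (Or.inr ⟨p, rfl⟩)))
      · exact Subgroup.subset_closure (Or.inl (Or.inr ⟨i, rfl⟩))
    rintro y (⟨k, rfl⟩ | hy)
    · exact h1 (Subgroup.mem_top k)
    · exact Subgroup.subset_closure (Or.inr hy)
  · intro H _ X' t' r' z' u' v' τ' hG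
    obtain ⟨Φ, a1, a2, a3⟩ := k4 H X' t' r' hG.rel
    have hall : ∀ (y : H), (∀ w, Commute y (X' w)) → (∀ p, Commute y (t' p)) →
        (∀ i, Commute y (r' i)) → ∀ k, Commute y (Φ k) := by
      intro y h1 h2 h3 k
      have : ∀ k ∈ Subgroup.closure (Set.range X ∪ Set.range t ∪ Set.range r),
          Commute y (Φ k) := by
        apply comm_closure'
        rintro w ((⟨w, rfl⟩ | ⟨p, rfl⟩) | ⟨i, rfl⟩)
        · rw [a1]; exact h1 w
        · rw [a2]; exact h2 p
        · rw [a3]; exact h3 i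
      exact this k (by rw [k3]; trivial)
    have hcv : ∀ y : H, Commute τ' (v' * y * v'⁻¹) ↔ Commute (v'⁻¹ * τ' * v') y := by
      intro y
      constructor
      · intro h
        rw [Commute, SemiconjBy] at h ⊢
        calc v'⁻¹ * τ' * v' * y = v'⁻¹ * (τ' * (v' * y * v'⁻¹)) * v' := by group
          _ = v'⁻¹ * ((v' * y * v'⁻¹) * τ') * v' := by rw [h]
          _ = _ := by group
      · intro h
        rw [Commute, SemiconjBy] at h ⊢
        calc τ' * (v' * y * v'⁻¹) = v' * ((v'⁻¹ * τ' * v') * y) * v'⁻¹ := by group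
          _ = v' * (y * (v'⁻¹ * τ' * v')) * v'⁻¹ := by rw [h]
          _ = _ := by group
    have hRU : RelU Q Rr x (t B) H Φ z' u' v' τ' := by
      refine ⟨?_, ?_, hG.uz, ?_, ?_, ?_, hG.τz, ?_⟩
      · rw [hQ]
        apply comm_closure'
        rintro w (⟨w, rfl⟩ | ⟨i, rfl⟩)
        · rw [a1]; exact hG.zx w
        · rw [a3]; exact hG.zr i
      · exact hall u' hG.ux hG.ut hG.ur
      · rw [hx, a1]; exact hG.vx
      · rw [a2]; exact hG.vt
      · intro k
        rw [hcv]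
        apply hall
        · intro w; rw [← hcv]; exact hG.τx w
        · intro w; rw [← hcv]; exact hG.τt w
        · intro w; rw [← hcv]; exact hG.τr' w
      · rw [hRr]
        apply comm_closure'
        rintro w ⟨i, rfl⟩
        rw [a3]; exact hG.τr i
    obtain ⟨Ψ, b1, b2, b3, b4, b5⟩ := t4 H Φ z' u' v' τ' hRU
    refine ⟨Ψ, fun w => ?_, fun p => ?_, fun i => ?_, b2, b3, b4, b5⟩
    · rw [MonoidHom.comp_apply, b1, a1]
    · rw [b1, a2]
    · rw [b1, a3]
  · intro n m hnm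
    obtain ⟨ρ, hρ, h⟩ := (hconn n m).2 (Or.inr ⟨n, m, rfl, rfl, hnm⟩)
    refine ⟨φ ρ, t2.zq ρ (hB.le hρ), t2.τr ρ hρ, ?_⟩
    have h1 := congrArg φ h
    rw [map_mul, map_mul, map_inv, map_s, map_s] at h1
    exact h1
  · intro n a hna hmin
    have hcm : ∀ m : ℤ, Conn Rr x (t B) n m → ∃ b : ℕ, m = b ∧ R n b := by
      intro m hm
      rcases (hconn n m).1 hm with h | ⟨a', b', h1, h2, h3⟩
      · exact ⟨n, h.symm, hR.refl n⟩
      · have : n = a' := by exact_mod_cast h1
        subst this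
        exact ⟨b', h2, h3⟩
    obtain ⟨β, b1, b2, b3⟩ := t5 n (Int.natCast_nonneg n) (by
      intro m hm
      obtain ⟨b, rfl, _⟩ := hcm m hm
      exact Int.natCast_nonneg b) (2 ^ (a + 1)) (by
      intro m hm
      obtain ⟨b, rfl, hb⟩ := hcm m hm
      rw [Int.toNat_natCast]
      exact pow_dvd_pow 2 (by have := hmin b hb; omega)) ⟨a, (hconn n a).2
        (Or.inr ⟨n, a, rfl, rfl, hna⟩), by rw [Int.toNat_natCast]⟩
    refine ⟨β, b1, b2, ?_⟩
    rw [b3, map_s]
    rfl

end Pool.Agent.X192.ISO
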